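import Pool.Agent.URW.Sys
import Pool.Agent.URW.Srf.Defs

/-!
# URW Cox: angles in the Coxeter group, the plane

* `nW` is the labelled graph of `Wm m` itself (`nbG` of the identity).
* `th w : ZMod (2 * (8 * m + 1))` is the ANGLE of `w ≠ 1`: `2 i` if `Ld w = {i}`, `2 i + 1` if
  `Ld w = {i, i + 1}`.
* `sm a` is the distance of the angle `a` to `0`.
* `plane m`: the Cayley square complex of `Wm m` with all squares coned; the centre of the square
  `sqv nW w i` is the vertex `inr (sqv nW w i)`. The square on the left of the edge `w → w s_i` is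
  `sqv nW w i` if the length of `w` is even, `sqv nW w (i - 1)` if it is odd.
-/

set_option autoImplicit false

namespace URW

variable {m : ℕ}

/-- The labelled graph of `Wm m`. -/
def nW (w : Wm m) (i : Lab m) : Wm m := w * sg i

/-- Angles. -/
abbrev Ang (m : ℕ) : Type := ZMod (2 * (8 * m + 1))

/-- The angle `2 i`. -/
def dbl (i : Lab m) : Ang m := ((2 * i.val : ℕ) : Ang m)

/-- Distance of an angle to `0`. -/
def sm (a : Ang m) : ℕ := a.valMinAbs.natAbs

open Classical in
/-- The angle of `w ≠ 1`. -/
noncomputable def th (w : Wm m) : Ang m :=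
  if h : ∃ i, UWW.Ld w = {i} then dbl h.choose
  else if h : ∃ i, UWW.Ld w = {i, i + 1} then dbl h.choose + 1
  else 0

open Classical in
/-- Basic triangles of the plane. -/
def T0 (m : ℕ) (a b c : Wm m ⊕ Set (Wm m)) : Prop :=
  ∃ (w : Wm m) (i : Lab m), a = Sum.inl w ∧ b = Sum.inl (w * sg i) ∧
    c = Sum.inr (sqv nW w (if Even (UWW.len w) then i else i - 1))

/-- The plane: Cayley complex of `Wm m`, squares coned. -/
def plane (m : ℕ) : Srf where
  V := Wm m ⊕ Set (Wm m)
  T := fun a b c => T0 m a b c ∨ T0 m b c a ∨ T0 m c a b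

/-- The corners: of a vertex `w` only `w`, of a square its corners. -/
def cor : (plane m).V → Set (Wm m)
  | Sum.inl w => {w}
  | Sum.inr s => s

/-- `y` is in the open cyclic interval from `u` to `v`. -/
def arc (u v y : Lab m) : Prop := 0 < (y - u).val ∧ (y - u).val < (v - u).val

/-- The pairs `u, v` and `y, z` are linked in the cyclic order (four distinct labels). -/
def Lnk (u v y z : Lab m) : Prop :=
  y ≠ u ∧ y ≠ v ∧ z ≠ u ∧ z ≠ v ∧ ((arc u v y ∧ ¬ arc u v z) ∨ (arc u v z ∧ ¬ arc u v y))

/-- Left translation of the plane. -/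
def trans (g : Wm m) : (plane m).V → (plane m).V :=
  Sum.map (fun w => g * w) (fun s => (fun w => g * w) '' s)

end URW
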