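import Pool.Agent.URW.Cox.Defs

/-!
# URW Cox/Desc (package, 2 h): descent sets, angles, edges

`c = cm m`: `c i j ↔ cd (i - j) = 1`. Facts from `UWW/Grp.lean`: `Ld_comm` (two different left descents
commute), `Ld_s_mul` (F2), `Ld_mul_s` (F3), `Ld_subset_mul_s`, `exists_red`, `mem_Ld_iff`.

PROOFS.
* `dbl_add`: `2 (i + j).val ≡ 2 i.val + 2 j.val mod 2 (8 m + 1)` (`ZMod.val_add`; `ZMod.natCast_eq_natCast_iff`).
  `sm_dbl`: with `z = i.valMinAbs`, `|z| ≤ 4 m`: `dbl i = (2 z : ℤ)` in `Ang m`, and `|2 z| ≤ 8 m < 8 m + 1`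
  (`ZMod.valMinAbs_spec`).
* `cd_one`: `i = 1` or `i = -1` if `cd i = 1` (`ZMod.coe_valMinAbs`).
* `Ld_nonempty`: `w = pr l`, `l` reduced, nonempty; its first letter is a descent (`rem_cons_self`).
* `Ld_cases`: the descents pairwise have difference `± 1` (`Ld_comm`). If `{i, j} ⊆ Ld w`, `i ≠ j`, then `j = i + 1` or
  `i = j + 1`; a third one `k` would be `i + 2` or `i - 1` (resp. …), and `cd 2 = 2`.
* `th_single`, `th_pair`: unfold `th`; the chosen element is unique (`{i} = {i'}`; `{i, i+1} = {i', i'+1}` gives `i = i'`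
  since `2 ≠ 0`); `{i} ≠ {i', i'+1}`.
* `th_of_mem`: `b ∈ Ld w` implies `th w ∈ {dbl b - 1, dbl b, dbl b + 1}`; from `Ld_cases`, `dbl_add`, `dbl 1 = 2`.
* `th_of_subset`: `Ld w ⊆ Ld w'`, both from `Ld_cases`: the differences are `0, 1, -1`.
* `th_edge`: `j ∉ Rd w`: `Ld w ⊆ Ld (w s_j)` (`Ld_subset_mul_s`), otherwise `j ∉ Rd (w s_j)` and
  `w = (w s_j) s_j` (`len_mul_s`, `mul_s_mul_s`).
* `Ld_down`: `a ∉ Ld y` (else `a`, `b` commute or are equal), so by `Ld_s_mul`: `i ∈ Ld (s_a y) ↔ i = a ∨ (i ∈ Ld y ∧ c i a)`;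
  `i ∈ Ld y` gives `cd (i - b) ≤ 1`, so `cd (i - a) ≥ 2` and not `c i a`.
* `Ld_far`: if `a ∈ Ld z`: `th z = dbl a + e`, `th y = dbl b + e'` with `e, e' ∈ {-1, 0, 1}`, so
  `sm (dbl (a - b)) ≤ 3`, but it is `2 cd (a - b) ≥ 6`.
-/

set_option autoImplicit false

namespace URW

variable {m : ℕ}

private theorem dbl_int (z : ℤ) : dbl ((z : ℤ) : Lab m) = ((2 * z : ℤ) : Ang m) := by
  have h1 : ((((z : ℤ) : Lab m).val : ℤ) : Lab m) = ((z : ℤ) : Lab m) := by
    rw [Int.cast_natCast, ZMod.natCast_zmod_val]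
  rw [ZMod.intCast_eq_intCast_iff_dvd_sub] at h1
  obtain ⟨k, hk⟩ := h1
  unfold dbl
  have h2 : ((2 * ((z : ℤ) : Lab m).val : ℕ) : Ang m) =
      ((2 * (((z : ℤ) : Lab m).val : ℤ) : ℤ) : Ang m) := by
    push_cast
    rfl
  rw [h2, ZMod.intCast_eq_intCast_iff_dvd_sub]
  refine ⟨k, ?_⟩
  push_cast at hk ⊢
  linarith

private theorem sm_int (z : ℤ) (hz : z.natAbs ≤ 8 * m + 1) (hz' : -(8 * (m : ℤ) + 1) < z) :
    sm ((z : ℤ) : Ang m) = z.natAbs := by
  unfold sm
  have h1 : ((z : ℤ) : Ang m).valMinAbs = z := by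
    rw [ZMod.valMinAbs_spec]
    refine ⟨rfl, ?_, ?_⟩
    · push_cast
      linarith
    · push_cast
      omega
  rw [h1]

theorem dbl_add (i j : Lab m) : dbl (i + j) = dbl i + dbl j := by
  rw [← ZMod.coe_valMinAbs i, ← ZMod.coe_valMinAbs j, ← Int.cast_add, dbl_int, dbl_int, dbl_int,
    ← Int.cast_add]
  congr 1
  ring

theorem dbl_sub (i j : Lab m) : dbl (i - j) = dbl i - dbl j := by
  rw [← ZMod.coe_valMinAbs i, ← ZMod.coe_valMinAbs j, ← Int.cast_sub, dbl_int, dbl_int, dbl_int,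
    ← Int.cast_sub]
  congr 1
  ring

theorem dbl_one (hm : 100 ≤ m) : dbl (1 : Lab m) = 2 := by
  have h := dbl_int (m := m) 1
  rw [Int.cast_one] at h
  rw [h]
  norm_num

theorem sm_dbl (i : Lab m) : sm (dbl i) = 2 * cd i := by
  have h1 : i.valMinAbs.natAbs ≤ 4 * m := cd_le i
  have h2 : dbl i = ((2 * i.valMinAbs : ℤ) : Ang m) := by
    conv_lhs => rw [← ZMod.coe_valMinAbs i]
    exact dbl_int _
  rw [h2, sm_int _ (by omega) (by omega)]
  unfold cd
  omega

theorem sm_neg (a : Ang m) : sm (-a) = sm a := by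
  exact ZMod.natAbs_valMinAbs_neg a

theorem sm_add_le (a b : Ang m) : sm (a + b) ≤ sm a + sm b := by
  exact (ZMod.natAbs_valMinAbs_add_le a b).trans (Int.natAbs_add_le _ _)

theorem sm_zero : sm (0 : Ang m) = 0 := by
  unfold sm
  rw [ZMod.valMinAbs_zero]
  rfl

theorem sm_one : sm (1 : Ang m) ≤ 1 := by
  have h := sm_int (m := m) 1 (by norm_num) (by omega)
  rw [Int.cast_one] at h
  rw [h]
  norm_num

theorem cd_one {i : Lab m} (h : cd i = 1) : i = 1 ∨ i = -1 := by
  unfold cd at h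
  rcases Int.natAbs_eq_iff.1 h with h1 | h1
  · left
    rw [← ZMod.coe_valMinAbs i, h1]
    norm_num
  · right
    rw [← ZMod.coe_valMinAbs i, h1]
    norm_num

theorem cd_one' (hm : 100 ≤ m) : cd (1 : Lab m) = 1 := by
  have h := cd_intCast (m := m) 1 (by norm_num; omega)
  rw [Int.cast_one] at h
  rw [h]
  norm_num

theorem cd_two (hm : 100 ≤ m) : cd (2 : Lab m) = 2 := by
  have h := cd_intCast (m := m) 2 (by norm_num; omega)
  have h2 : (((2 : ℤ)) : Lab m) = 2 := by norm_num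
  rw [h2] at h
  rw [h]
  norm_num

private theorem ld_cm {w : Wm m} {i j : Lab m} (hi : i ∈ UWW.Ld w) (hj : j ∈ UWW.Ld w)
    (h : i ≠ j) : cd (i - j) = 1 := by
  have h1 : cm m i j := UWW.Ld_comm hi hj h
  exact h1

private theorem not_three (hm : 100 ≤ m) {w : Wm m} {i j k : Lab m} (hi : i ∈ UWW.Ld w)
    (hj : j ∈ UWW.Ld w) (hk : k ∈ UWW.Ld w) (hij : i ≠ j) (hjk : j ≠ k) (hik : i ≠ k) : False := by
  have h1 : cd (i - j) = 1 := ld_cm hi hj hij
  have h2 : cd (j - k) = 1 := ld_cm hj hk hjk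
  have h3 : cd (i - k) = 1 := ld_cm hi hk hik
  have h4 : i - k = (i - j) + (j - k) := by ring
  rw [h4] at h3
  have h5 := cd_two hm
  have h6 : (1 : Lab m) + 1 = 2 := by norm_num
  rcases cd_one h1 with e | e <;> rcases cd_one h2 with e' | e' <;> rw [e, e'] at h3
  · rw [h6, h5] at h3
    omega
  · rw [add_neg_cancel, cd_zero] at h3
    omega
  · rw [neg_add_cancel, cd_zero] at h3
    omega
  · rw [← neg_add, h6, cd_neg, h5] at h3
    omega

private theorem one_ne (hm : 100 ≤ m) : (1 : Lab m) ≠ 0 := by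
  intro h
  have h1 := cd_one' hm
  rw [h, cd_zero] at h1
  omega

private theorem two_ne (hm : 100 ≤ m) : (2 : Lab m) ≠ 0 := by
  intro h
  have h1 := cd_two hm
  rw [h, cd_zero] at h1
  omega

private theorem pair_eq (hm : 100 ≤ m) {i j : Lab m} (h1 : i = j ∨ i = j + 1)
    (h2 : i + 1 = j ∨ i + 1 = j + 1) : i = j := by
  rcases h2 with h2 | h2
  · rcases h1 with h1 | h1
    · exact h1
    · exfalso
      rw [← h2, add_assoc, left_eq_add] at h1
      have h6 : (1 : Lab m) + 1 = 2 := by norm_num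
      rw [h6] at h1
      exact two_ne hm h1
  · exact add_right_cancel h2

private theorem ne_one_of_mem {w : Wm m} {b : Lab m} (h : b ∈ UWW.Ld w) : w ≠ 1 := by
  rintro rfl
  have h1 : UWW.len (UWW.s (cm m) b * 1) < UWW.len (1 : Wm m) := h
  have h2 : UWW.len (1 : Wm m) = 0 := UWW.len_one
  omega

theorem Ld_nonempty {w : Wm m} (h : w ≠ 1) : (UWW.Ld w).Nonempty := by
  obtain ⟨l, hl, rfl⟩ := UWW.exists_red w
  cases l with
  | nil => exact absurd rfl h
  | cons a l =>
    refine ⟨a, ?_⟩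
    change UWW.len (UWW.s (cm m) a * UWW.pr (cm m) (a :: l)) < UWW.len (UWW.pr (cm m) (a :: l))
    rw [UWW.len_pr hl, UWW.pr_cons, UWW.s_mul_s_mul, List.length_cons]
    exact Nat.lt_succ_of_le (UWW.len_pr_le l)

theorem Ld_cases (hm : 100 ≤ m) {w : Wm m} (h : w ≠ 1) :
    (∃ i, UWW.Ld w = {i}) ∨ ∃ i, UWW.Ld w = {i, i + 1} := by
  obtain ⟨i, hi⟩ := Ld_nonempty h
  by_cases hj : ∃ j ∈ UWW.Ld w, j ≠ i
  · right
    obtain ⟨j, hj, hji⟩ := hj
    have h1 : cd (j - i) = 1 := ld_cm hj hi hji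
    rcases cd_one h1 with e | e
    · have e' : j = i + 1 := by
        rw [← e]
        ring
      refine ⟨i, Set.Subset.antisymm (fun k hk => ?_) ?_⟩
      · by_contra hcon
        rw [← e'] at hcon
        simp only [Set.mem_insert_iff, Set.mem_singleton_iff, not_or] at hcon
        exact not_three hm hk hi hj hcon.1 (Ne.symm hji) hcon.2
      · rw [← e']
        rintro k (rfl | rfl)
        · exact hi
        · exact hj
    · have e' : i = j + 1 := by
        have e2 : i = j - (j - i) := by ring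
        rw [e2, e, sub_neg_eq_add]
      refine ⟨j, Set.Subset.antisymm (fun k hk => ?_) ?_⟩
      · by_contra hcon
        rw [← e'] at hcon
        simp only [Set.mem_insert_iff, Set.mem_singleton_iff, not_or] at hcon
        exact not_three hm hk hi hj hcon.2 (Ne.symm hji) hcon.1
      · rw [← e']
        rintro k (rfl | rfl)
        · exact hj
        · exact hi
  · left
    push Not at hj
    refine ⟨i, Set.Subset.antisymm (fun k hk => hj k hk) ?_⟩
    rintro k rfl
    exact hi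

theorem th_single (hm : 100 ≤ m) {w : Wm m} {i : Lab m} (h : UWW.Ld w = {i}) : th w = dbl i := by
  have h1 : ∃ i, UWW.Ld w = {i} := ⟨i, h⟩
  unfold th
  rw [dif_pos h1]
  have h3 : i = h1.choose := Set.singleton_injective (h.symm.trans h1.choose_spec)
  rw [← h3]

theorem th_pair (hm : 100 ≤ m) {w : Wm m} {i : Lab m} (h : UWW.Ld w = {i, i + 1}) :
    th w = dbl i + 1 := by
  have h0 : ¬ ∃ i, UWW.Ld w = {i} := by
    rintro ⟨j, hj⟩
    have h1 : i ∈ ({j} : Set (Lab m)) := by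
      rw [← hj, h]
      exact Or.inl rfl
    have h2 : i + 1 ∈ ({j} : Set (Lab m)) := by
      rw [← hj, h]
      exact Or.inr rfl
    rw [Set.mem_singleton_iff] at h1 h2
    rw [h1, add_eq_left] at h2
    exact one_ne hm h2
  have h1 : ∃ i, UWW.Ld w = {i, i + 1} := ⟨i, h⟩
  unfold th
  rw [dif_neg h0, dif_pos h1]
  have h2 := h1.choose_spec
  have h3 : i = h1.choose := by
    refine pair_eq hm ?_ ?_
    · have : i ∈ UWW.Ld w := by
        rw [h]
        exact Or.inl rfl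
      rw [h2] at this
      exact this
    · have : i + 1 ∈ UWW.Ld w := by
        rw [h]
        exact Or.inr rfl
      rw [h2] at this
      exact this
  rw [← h3]

theorem th_of_mem (hm : 100 ≤ m) {w : Wm m} {b : Lab m} (h : b ∈ UWW.Ld w) :
    sm (th w - dbl b) ≤ 1 := by
  rcases Ld_cases hm (ne_one_of_mem h) with ⟨i, hi⟩ | ⟨i, hi⟩
  · rw [th_single hm hi]
    rw [hi, Set.mem_singleton_iff] at h
    rw [h, sub_self, sm_zero]
    exact Nat.zero_le _
  · rw [th_pair hm hi]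
    rw [hi] at h
    rcases h with rfl | h
    · rw [add_sub_cancel_left]
      exact sm_one
    · rw [Set.mem_singleton_iff] at h
      rw [h, dbl_add, dbl_one hm]
      have e : dbl i + 1 - (dbl i + 2) = -(1 : Ang m) := by ring
      rw [e, sm_neg]
      exact sm_one

theorem th_of_subset (hm : 100 ≤ m) {w w' : Wm m} (h : w ≠ 1) (h' : UWW.Ld w ⊆ UWW.Ld w') :
    sm (th w' - th w) ≤ 1 := by
  rcases Ld_cases hm h with ⟨i, hi⟩ | ⟨i, hi⟩
  · rw [th_single hm hi]
    refine th_of_mem hm (h' ?_)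
    rw [hi]
    rfl
  · have h1 : i ∈ UWW.Ld w' := h' (by rw [hi]; exact Or.inl rfl)
    have h2 : i + 1 ∈ UWW.Ld w' := h' (by rw [hi]; exact Or.inr rfl)
    rcases Ld_cases hm (ne_one_of_mem h1) with ⟨j, hj⟩ | ⟨j, hj⟩
    · exfalso
      rw [hj, Set.mem_singleton_iff] at h1 h2
      rw [h1, add_eq_left] at h2
      exact one_ne hm h2
    · rw [hj] at h1 h2
      have h3 : i = j := pair_eq hm h1 h2
      rw [th_pair hm hi, th_pair hm hj, h3, sub_self, sm_zero]
      exact Nat.zero_le _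

/-- Along an edge the angle changes by at most one (half) unit. -/
theorem th_edge (hm : 100 ≤ m) {w : Wm m} {j : Lab m} (h : w ≠ 1) (h' : w * sg j ≠ 1) :
    sm (th (w * sg j) - th w) ≤ 1 := by
  rcases UWW.len_mul_s w j with ⟨hj, -⟩ | ⟨hj, hl⟩
  · exact th_of_subset hm h (UWW.Ld_subset_mul_s hj)
  · have h1 : w * sg j * sg j = w := UWW.mul_s_mul_s j w
    have h2 : j ∉ UWW.Rd (w * sg j) := by
      intro h3
      have h4 : UWW.len (w * sg j * sg j) < UWW.len (w * sg j) := h3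
      rw [h1] at h4
      have h5 : UWW.len (w * sg j) + 1 = UWW.len w := hl
      omega
    have h3 : UWW.Ld (w * sg j) ⊆ UWW.Ld (w * sg j * sg j) := UWW.Ld_subset_mul_s h2
    rw [h1] at h3
    have h4 := th_of_subset hm h' h3
    rwa [← sm_neg, neg_sub] at h4

/-- Going down. -/
theorem Ld_down (hm : 100 ≤ m) {y : Wm m} {a b : Lab m} (hab : 3 ≤ cd (a - b))
    (hb : b ∈ UWW.Ld y) : UWW.Ld (sg a * y) = {a} := by
  have hne : ∀ {i : Lab m}, i ∈ UWW.Ld y → cd (i - b) ≤ 1 := by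
    intro i hi
    by_cases h : i = b
    · rw [h, sub_self, cd_zero]
      exact Nat.zero_le _
    · have h1 : cd (i - b) = 1 := ld_cm hi hb h
      exact h1.le
  have ha : a ∉ UWW.Ld y := fun ha => by
    have := hne ha
    omega
  ext i
  rw [Set.mem_singleton_iff]
  refine (UWW.Ld_s_mul ha i).trans ⟨?_, fun h => Or.inl h⟩
  rintro (h | ⟨h1, h2⟩)
  · exact h
  · exfalso
    have h3 : cd (i - a) = 1 := h2
    have h4 := hne h1
    have h5 := cd_add_le (a - i) (i - b)
    have h6 : a - i + (i - b) = a - b := by ring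
    rw [h6, cd_sub_comm a i] at h5
    omega

/-- Small change of the angle, distant descents. -/
theorem Ld_far (hm : 100 ≤ m) {y z : Wm m} {a b : Lab m} (hab : 3 ≤ cd (a - b))
    (hb : b ∈ UWW.Ld y) (hz : z ≠ 1) (hs : sm (th z - th y) ≤ 1) : a ∉ UWW.Ld z := by
  intro ha
  have h1 := th_of_mem hm ha
  have h2 := th_of_mem hm hb
  have h3 : dbl (a - b) = (th z - th y) + (-(th z - dbl a) + (th y - dbl b)) := by
    rw [dbl_sub]
    ring
  have h4 := sm_dbl (a - b)
  rw [h3] at h4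
  have h5 := sm_add_le (th z - th y) (-(th z - dbl a) + (th y - dbl b))
  have h6 := sm_add_le (-(th z - dbl a)) (th y - dbl b)
  rw [sm_neg] at h6
  omega

end URW
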