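import Pool.Agent.URW.Cox.Tri

/-!
# URW Cox/Exact (package, 1.5 h): the plane is homologically trivial

PROOF of `exact_W`. Let `b : Wm m → Lab m → A` with `b (w s_i) i = - b w i` and
`b w i + b (w s_i) (i + 1) = b w (i + 1) + b (w s_{i+1}) i`. Let `σ_i (w, a) = (w s_i, a + b w i)`, a permutation of
`Wm m × A` with `σ_i σ_i = 1`, and `σ_i σ_j = σ_j σ_i` for `cm m i j` (then `j = i + 1` or `i = j + 1`, `cd_one`). By `UWW.lift` there is
`τ : Wm m →* Equiv.Perm (Wm m × A)` with `τ (s_i) = σ_i`. `(τ w⁻¹ (1, 0)).1 = w` and `φ w := (τ w⁻¹ (1, 0)).2` satisfies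
`φ (w s_i) = φ w + b w i`, since `τ ((w s_i)⁻¹) = σ_i ∘ τ w⁻¹` (first show the first component by `UWW.W.ind` for `w⁻¹`
or in the form `∀ x, (τ w x).1 = x.1 * w⁻¹`).

PROOF of `exact_plane`. `b w i = a (inl w) (inl (w s_i))`. The square relation: the sum of the four triangle relations
of the square `s = sqv nW w i` (for even `w`: `T (w) (w s_i) s`, `T (w s_i) (w s_i s_{i+1}) s`, `T (w s_i s_{i+1}) (w s_{i+1}) s`,
`T (w s_{i+1}) w s`; for odd `w` the reversed square; the terms with the centre cancel by antisymmetry). Take `φ` of `exact_W`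
on `inl w`; for a square `s` with a corner `w` put `φ (inr s) = φ w + a (inl w) (inr s)` for a chosen corner `w ∈ s`
(`Classical.choose`; `0` if `s` has no corner): independent of the corner since for adjacent corners `x, y` of the
square the triangle relation gives `a x s = a x y + a y s = φ y - φ x + a y s`; two corners are joined by edges in the
square (`sq_path`). Then check `a x y = φ y - φ x` on all edges (`adj_inl_inl`, `adj_inr'`, antisymmetry).
-/

set_option autoImplicit false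

namespace URW

variable {m : ℕ}

private theorem cm_cases {i j : Lab m} (h : cm m i j) : i = j + 1 ∨ j = i + 1 := by
  have h1 : cd (i - j) = 1 := h
  rcases cd_one h1 with h2 | h2
  · left
    rw [← h2]
    ring
  · right
    have h3 : j = i - (i - j) := by ring
    rw [h2] at h3
    rw [h3]
    ring

/-- the permutation of a generator -/
private def sig {A : Type} [AddCommGroup A] (b : Wm m → Lab m → A)
    (h1 : ∀ w i, b (w * sg i) i = - b w i) (i : Lab m) : Equiv.Perm (Wm m × A) where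
  toFun p := (p.1 * sg i, p.2 + b p.1 i)
  invFun p := (p.1 * sg i, p.2 + b p.1 i)
  left_inv p := by
    change ((p.1 * sg i) * sg i, (p.2 + b p.1 i) + b (p.1 * sg i) i) = p
    rw [UWW.mul_s_mul_s, h1, add_neg_cancel_right]
  right_inv p := by
    change ((p.1 * sg i) * sg i, (p.2 + b p.1 i) + b (p.1 * sg i) i) = p
    rw [UWW.mul_s_mul_s, h1, add_neg_cancel_right]

theorem exact_W {A : Type} [AddCommGroup A] (b : Wm m → Lab m → A)
    (h1 : ∀ w i, b (w * sg i) i = - b w i)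
    (h2 : ∀ w i, b w i + b (w * sg i) (i + 1) = b w (i + 1) + b (w * sg (i + 1)) i) :
    ∃ φ : Wm m → A, ∀ w i, φ (w * sg i) = φ w + b w i := by
  have s1 : ∀ i, sig b h1 i * sig b h1 i = 1 := by
    intro i
    refine Equiv.ext fun p => ?_
    exact (sig b h1 i).left_inv p
  have s2 : ∀ i, sig b h1 i * sig b h1 (i + 1) = sig b h1 (i + 1) * sig b h1 i := by
    intro i
    refine Equiv.ext fun p => ?_
    change ((p.1 * sg (i + 1)) * sg i, (p.2 + b p.1 (i + 1)) + b (p.1 * sg (i + 1)) i) =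
      ((p.1 * sg i) * sg (i + 1), (p.2 + b p.1 i) + b (p.1 * sg i) (i + 1))
    rw [add_assoc, add_assoc, h2, mul_assoc, mul_assoc, sg_comm]
  have s3 : ∀ i j, cm m i j → sig b h1 i * sig b h1 j = sig b h1 j * sig b h1 i := by
    intro i j hij
    rcases cm_cases hij with rfl | rfl
    · exact (s2 j).symm
    · exact s2 i
  let τ : Wm m →* Equiv.Perm (Wm m × A) := UWW.lift (sig b h1) s1 s3
  have t1 : ∀ i, τ (sg i) = sig b h1 i := fun i => UWW.lift_s (sig b h1) s1 s3 i
  have t2 : ∀ (w : Wm m) (x : Wm m × A), (τ w x).1 = x.1 * w⁻¹ := by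
    intro w
    refine UWW.W.ind (P := fun w => ∀ x : Wm m × A, (τ w x).1 = x.1 * w⁻¹) ?_ ?_ w
    · intro x
      rw [map_one, inv_one, mul_one]
      rfl
    · intro i w ih x
      have h3 : τ (UWW.s (cm m) i * w) x = sig b h1 i (τ w x) := by
        rw [map_mul, t1 i]
        rfl
      rw [h3]
      change (τ w x).1 * sg i = x.1 * (sg i * w)⁻¹
      rw [ih, mul_inv_rev, UWW.s_inv, mul_assoc]
  refine ⟨fun w => (τ w⁻¹ (1, 0)).2, fun w i => ?_⟩
  have h3 : τ (w * sg i)⁻¹ (1, 0) = sig b h1 i (τ w⁻¹ (1, 0)) := by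
    rw [mul_inv_rev, UWW.s_inv, map_mul, t1 i]
    rfl
  change (τ (w * sg i)⁻¹ (1, 0)).2 = (τ w⁻¹ (1, 0)).2 + b w i
  rw [h3]
  change (τ w⁻¹ (1, 0)).2 + b (τ w⁻¹ (1, 0)).1 i = _
  rw [t2, inv_inv, one_mul]

private theorem tri1 {A : Type} [AddCommGroup A] {a : (plane m).V → (plane m).V → A}
    (ha : ∀ x y, a y x = -a x y) {x y z : (plane m).V} (h : a x y + a y z + a z x = 0) :
    a x y = a x z + a z y := by
  have e1 := ha z y
  have e2 := ha x z
  have h1 : a x y = -(a y z + a z x) := by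
    rw [add_assoc] at h
    exact eq_neg_of_add_eq_zero_left h
  rw [h1, e1, e2]
  abel

private theorem tri2 {A : Type} [AddCommGroup A] {a : (plane m).V → (plane m).V → A}
    (ha : ∀ x y, a y x = -a x y) {x y z : (plane m).V} (h : a x z + a z y + a y x = 0) :
    a x y = a x z + a z y := by
  have e1 := ha x y
  rw [e1] at h
  exact (add_neg_eq_zero.1 h).symm

theorem exact_plane (hm : 100 ≤ m) (A : Type) [AddCommGroup A]
    (a : (plane m).V → (plane m).V → A) (ha : ∀ x y, a y x = -a x y)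
    (hT : ∀ x y z, (plane m).T x y z → a x y + a y z + a z x = 0) :
    ∃ φ : (plane m).V → A, ∀ x y, (plane m).Adj x y → a x y = φ y - φ x := by
  have K1 : ∀ (w : Wm m) (i : Lab m), a (Sum.inl w) (Sum.inl (w * sg i)) =
      a (Sum.inl w) (Sum.inr (sqv nW w i)) + a (Sum.inr (sqv nW w i)) (Sum.inl (w * sg i)) := by
    intro w i
    by_cases he : Even (UWW.len w)
    · exact tri1 ha (hT _ _ _ ((T_inl hm w _ _).2 ⟨i, Or.inl ⟨he, Or.inl ⟨rfl, rfl⟩⟩⟩))
    · exact tri2 ha (hT _ _ _ ((T_inl hm w _ _).2 ⟨i, Or.inr ⟨he, Or.inl ⟨rfl, rfl⟩⟩⟩))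
  have K2 : ∀ (w : Wm m) (i : Lab m), a (Sum.inl w) (Sum.inl (w * sg (i + 1))) =
      a (Sum.inl w) (Sum.inr (sqv nW w i)) +
        a (Sum.inr (sqv nW w i)) (Sum.inl (w * sg (i + 1))) := by
    intro w i
    by_cases he : Even (UWW.len w)
    · exact tri2 ha (hT _ _ _ ((T_inl hm w _ _).2 ⟨i, Or.inl ⟨he, Or.inr ⟨rfl, rfl⟩⟩⟩))
    · exact tri1 ha (hT _ _ _ ((T_inl hm w _ _).2 ⟨i, Or.inr ⟨he, Or.inr ⟨rfl, rfl⟩⟩⟩))
  have q1 : ∀ (w : Wm m) (i : Lab m), sqv nW (w * sg i) i = sqv nW w i := fun w i =>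
    (sq_corner' (by rw [sqv_eq]; simp)).symm
  have q2 : ∀ (w : Wm m) (i : Lab m), sqv nW (w * sg (i + 1)) i = sqv nW w i := fun w i =>
    (sq_corner' (by rw [sqv_eq]; simp)).symm
  obtain ⟨φ, hφ⟩ := exact_W (fun w i => a (Sum.inl w) (Sum.inl (w * sg i)))
    (fun w i => by
      rw [UWW.mul_s_mul_s]
      exact ha _ _)
    (fun w i => by
      have e1 := K1 w i
      have e2 := K2 (w * sg i) i
      have e3 := K2 w i
      have e4 := K1 (w * sg (i + 1)) i
      rw [q1] at e2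
      rw [q2] at e4
      have e5 : w * sg (i + 1) * sg i = w * sg i * sg (i + 1) := by
        rw [mul_assoc, mul_assoc, sg_comm]
      rw [e1, e2, e3, e4, e5, ha (Sum.inl (w * sg i)) (Sum.inr (sqv nW w i)),
        ha (Sum.inl (w * sg (i + 1))) (Sum.inr (sqv nW w i))]
      abel)
  have hφ' : ∀ (w : Wm m) (i : Lab m), φ (w * sg i) = φ w +
    a (Sum.inl w) (Sum.inl (w * sg i)) := hφ
  have F1 : ∀ (w : Wm m) (i : Lab m), φ (w * sg i) +
      a (Sum.inl (w * sg i)) (Sum.inr (sqv nW w i)) =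
        φ w + a (Sum.inl w) (Sum.inr (sqv nW w i)) := by
    intro w i
    rw [hφ', K1, ha (Sum.inl (w * sg i)) (Sum.inr (sqv nW w i))]
    abel
  have F2 : ∀ (w : Wm m) (i : Lab m), φ (w * sg (i + 1)) +
      a (Sum.inl (w * sg (i + 1))) (Sum.inr (sqv nW w i)) =
        φ w + a (Sum.inl w) (Sum.inr (sqv nW w i)) := by
    intro w i
    rw [hφ', K2 w i, ha (Sum.inl (w * sg (i + 1))) (Sum.inr (sqv nW w i))]
    abel
  have F3 : ∀ (w x : Wm m) (i : Lab m), x ∈ sqv nW w i →
      φ x + a (Sum.inl x) (Sum.inr (sqv nW w i)) =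
        φ w + a (Sum.inl w) (Sum.inr (sqv nW w i)) := by
    intro w x i hx
    have hx' := hx
    rw [sqv_eq] at hx'
    rcases hx' with rfl | rfl | rfl | rfl
    · rfl
    · exact F1 w i
    · exact F2 w i
    · have e1 := F2 (w * sg i) i
      rw [q1] at e1
      rw [e1]
      exact F1 w i
  classical
  let ψ : Set (Wm m) → A := fun s =>
    if h : s.Nonempty then φ h.choose + a (Sum.inl h.choose) (Sum.inr s) else 0
  have hψ : ∀ (w x : Wm m) (i : Lab m), x ∈ sqv nW w i →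
      ψ (sqv nW w i) = φ x + a (Sum.inl x) (Sum.inr (sqv nW w i)) := by
    intro w x i hx
    have hne : (sqv nW w i).Nonempty := ⟨x, hx⟩
    have e1 : ψ (sqv nW w i) = φ hne.choose +
        a (Sum.inl hne.choose) (Sum.inr (sqv nW w i)) := dif_pos hne
    rw [e1, F3 w _ i hne.choose_spec, F3 w x i hx]
  have key : ∀ (s : Set (Wm m)) (y : (plane m).V), (plane m).Adj (Sum.inr s) y →
      ∃ x, y = Sum.inl x ∧ a (Sum.inr s) y = φ x - ψ s := by
    intro s y h
    obtain ⟨w, i, rfl⟩ := adj_inr hm h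
    obtain ⟨x, hx, rfl⟩ := adj_inr' h
    refine ⟨x, rfl, ?_⟩
    rw [hψ w x i hx, ha (Sum.inl x) (Sum.inr (sqv nW w i))]
    abel
  refine ⟨Sum.elim φ ψ, fun x y h => ?_⟩
  rcases x with w | s
  · rcases y with w' | s
    · obtain ⟨i, rfl⟩ := adj_inl_inl hm h
      change a (Sum.inl w) (Sum.inl (w * sg i)) = φ (w * sg i) - φ w
      rw [hφ', add_sub_cancel_left]
    · obtain ⟨z, hz⟩ := h
      obtain ⟨x, hx, h1⟩ := key s (Sum.inl w) (good_opp hm hz)
      have e : w = x := Sum.inl_injective hx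
      subst e
      change a (Sum.inl w) (Sum.inr s) = ψ s - φ w
      rw [ha (Sum.inr s) (Sum.inl w), h1, neg_sub]
  · obtain ⟨x, rfl, h1⟩ := key s y h
    exact h1

end URW
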