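import Pool.Agent.URW.Cox.Sq

/-!
# URW Cox/Far (package, 2.5 h): loops far from the base point which wind around it

`inc x y = (th y - th x).valMinAbs : ℤ`; along an edge avoiding `1` it is `-1`, `0` or `1` (`th_edge`).
`Far k x y z`: there is a walk from `x` to `y` all of whose vertices have length `≥ k`, with total increment `z`.

PROOFS.
* `far_trans`, `far_symm`: append / reverse words (`inc y x = - inc x y`: both are at most `1` in absolute
  value by `th_edge`, and `(-a).valMinAbs = - a.valMinAbs` for `|a| ≤ 1`, or `sm` small: `ZMod.valMinAbs_neg_of_ne_half`).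
* `inc_square`: for a square without the corner `1`: `inc w (w s_i) + inc (w s_i) (w s_i s_{i+1}) =
  inc w (w s_{i+1}) + inc (w s_{i+1}) (w s_{i+1} s_i)`: both sides are congruent mod `2 (8 m + 1)` to
  `th (w s_i s_{i+1}) - th w` (`ZMod.coe_valMinAbs`) and at most `2` in absolute value.
* `corner_walk`: let `len z = k ≥ 1`, `i, i + 1 ∉ Rd z`: then `Far (k + 1) (z s_i) (z s_{i+1}) (inc z (z s_{i+1}) - inc z (z s_i))`:
  the walk `z s_i, z s_i s_{i+1}, z s_{i+1}` (lengths `k+1, k+2, k+1`: `i + 1 ∉ Rd (z s_i)` by `Rd_mul_s`), `inc_square` (no corner is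
  `1`, all lengths are `≥ k ≥ 1`).
* `around`: the same for arbitrary `i, j ∉ Rd z` (`len z = k ≥ 1`): `Rd z ⊆ {r, r + 1}` for some `r ∈ Rd z` (`Ld_cases` for
  `z⁻¹`, `Rd_eq`). The `j ∉ Rd z` are the `r + t` with `2 ≤ t ≤ 8 m`, and `t = 1` if `Rd z = {r}`. Induction on `t' - t`
  with `corner_walk`.
* `push`: `Far k x y z`, `len x ≥ k + 1`, `k ≥ 1`: if `len y ≥ k + 1` then `Far (k + 1) x y z`, and if `len y = k` then for
  every `j ∉ Rd y`: `Far (k + 1) x (y s_j) (z + inc y (y s_j))`. Induction on the walk (last step `y → y s_j`); if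
  `len y ≥ k + 1` and `len (y s_j) = k`: put `u = y s_j`, `y = u s_j`, `j ∉ Rd u`; use `around` from `u s_j` to `u s_i`. If `len y = k`
  then `len (y s_j) = k + 1` (lengths are `≥ k`), `j ∉ Rd y`.
* `ring`: the closed walk `s_0, s_0 s_1, s_1, s_1 s_2, s_2, …, s_0` has lengths `1, 2` and every step has the increment
  `1` (angles `dbl i`, `dbl i + 1`, `dbl (i + 1)`, …), `2 (8 m + 1)` steps: `Far 1 s_0 s_0 (2 (8 m + 1))`. (Induction:
  `Far 1 s_0 s_t (2 t)` for `t : ℕ`.)
* `far_loop`: let `x` be the end of a nice word of length `R + 2` with first label `0` (alternating `0`, `m`): the walk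
  from `s_0` to `x` gives `Far 1 x x (2 (8 m + 1))` (path, ring, path back); `push` `R` times: `Far (R + 1) x x (..)`. Unfold.
-/

set_option autoImplicit false

namespace URW

variable {m : ℕ}

/-- Increment of the angle. -/
noncomputable def inc (x y : Wm m) : ℤ := (th y - th x).valMinAbs

/-- There is a walk from `x` to `y` at distance at least `k` from `1` with total increment `z`. -/
def Far (k : ℕ) (x y : Wm m) (z : ℤ) : Prop :=
  ∃ l : List (Lab m), walk nW x l = y ∧ (∀ p, p <+: l → k ≤ UWW.len (walk nW x p)) ∧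
    Srf.wsum inc (l.scanl nW x) = z

/-! ### Small residues -/

private lemma vm_of {a : Ang m} {z : ℤ} (h : ((z : ℤ) : Ang m) = a) (hz : z.natAbs ≤ 8 * m) :
    a.valMinAbs = z := by
  rw [ZMod.valMinAbs_spec]
  refine ⟨h.symm, ?_, ?_⟩
  · push_cast
    omega
  · push_cast
    omega

private lemma inc_cast (x y : Wm m) : ((inc x y : ℤ) : Ang m) = th y - th x :=
  ZMod.coe_valMinAbs _

private lemma inc_natAbs (x y : Wm m) : (inc x y).natAbs = sm (th y - th x) := rfl

private lemma inc_le (hm : 100 ≤ m) {w : Wm m} {j : Lab m} (h : w ≠ 1) (h' : w * sg j ≠ 1) :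
    (inc w (w * sg j)).natAbs ≤ 1 := th_edge hm h h'

private lemma inc_of {x y : Wm m} {z : ℤ} (h : ((z : ℤ) : Ang m) = th y - th x)
    (hz : z.natAbs ≤ 8 * m) : inc x y = z := vm_of h hz

theorem inc_neg (hm : 100 ≤ m) {w : Wm m} {j : Lab m} (h : w ≠ 1) (h' : w * sg j ≠ 1) :
    inc (w * sg j) w = - inc w (w * sg j) := by
  have h1 := inc_le hm h h'
  refine inc_of ?_ (by rw [Int.natAbs_neg]; omega)
  rw [Int.cast_neg, inc_cast]
  ring

private lemma sg_comm3 (w : Wm m) (i : Lab m) :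
    w * sg i * sg (i + 1) = w * sg (i + 1) * sg i := by
  rw [mul_assoc, sg_comm, ← mul_assoc]

theorem inc_square (hm : 100 ≤ m) {w : Wm m} {i : Lab m} (h : ∀ x ∈ sqv nW w i, x ≠ 1) :
    inc w (w * sg i) + inc (w * sg i) (w * sg i * sg (i + 1)) =
      inc w (w * sg (i + 1)) + inc (w * sg (i + 1)) (w * sg (i + 1) * sg i) := by
  rw [sqv_eq] at h
  have h0 : w ≠ 1 := h w (by simp)
  have h1 : w * sg i ≠ 1 := h _ (by simp)
  have h2 : w * sg (i + 1) ≠ 1 := h _ (by simp)
  have h3 : w * sg i * sg (i + 1) ≠ 1 := h _ (by simp)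
  have h4 : w * sg (i + 1) * sg i ≠ 1 := by rw [← sg_comm3]; exact h3
  have e1 := inc_le hm h0 h1
  have e2 := inc_le hm h1 h3
  have e3 := inc_le hm h0 h2
  have e4 := inc_le hm h2 h4
  have f1 := Int.natAbs_add_le (inc w (w * sg i)) (inc (w * sg i) (w * sg i * sg (i + 1)))
  have f2 := Int.natAbs_add_le (inc w (w * sg (i + 1)))
    (inc (w * sg (i + 1)) (w * sg (i + 1) * sg i))
  have g1 : (th (w * sg i * sg (i + 1)) - th w).valMinAbs =
      inc w (w * sg i) + inc (w * sg i) (w * sg i * sg (i + 1)) := by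
    refine vm_of ?_ (by omega)
    rw [Int.cast_add, inc_cast, inc_cast]
    ring
  have g2 : (th (w * sg i * sg (i + 1)) - th w).valMinAbs =
      inc w (w * sg (i + 1)) + inc (w * sg (i + 1)) (w * sg (i + 1) * sg i) := by
    refine vm_of ?_ (by omega)
    rw [Int.cast_add, inc_cast, inc_cast, sg_comm3]
    ring
  rw [← g1, g2]

/-! ### Walks -/

private lemma wsum_cons (x : Wm m) (j : Lab m) (l : List (Lab m)) :
    Srf.wsum inc ((j :: l).scanl nW x) = inc x (nW x j) + Srf.wsum inc (l.scanl nW (nW x j)) := by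
  cases l with
  | nil => simp [Srf.wsum]
  | cons b l => simp [Srf.wsum]

private lemma wsum_snoc (x : Wm m) (l : List (Lab m)) (j : Lab m) :
    Srf.wsum inc ((l ++ [j]).scanl nW x) =
      Srf.wsum inc (l.scanl nW x) + inc (walk nW x l) (nW (walk nW x l) j) := by
  induction l generalizing x with
  | nil => simp [Srf.wsum, walk]
  | cons b l ih =>
    rw [List.cons_append, wsum_cons, ih, wsum_cons, add_assoc]
    rfl

private lemma walk_snoc (x : Wm m) (l : List (Lab m)) (j : Lab m) :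
    walk nW x (l ++ [j]) = nW (walk nW x l) j := by
  simp [walk, List.foldl_append]

private lemma pre_snoc {p l : List (Lab m)} {j : Lab m} (h : p <+: l ++ [j]) :
    p = l ++ [j] ∨ p <+: l := by
  obtain ⟨t, ht⟩ := h
  rcases List.eq_nil_or_concat t with rfl | ⟨t', b, rfl⟩
  · left
    rw [← ht, List.append_nil]
  · right
    rw [List.concat_eq_append, ← List.append_assoc] at ht
    exact ⟨t', (List.append_inj' ht rfl).1⟩

theorem far_refl {k : ℕ} {x : Wm m} (h : k ≤ UWW.len x) : Far k x x 0 := by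
  refine ⟨[], rfl, ?_, ?_⟩
  · rintro p ⟨t, ht⟩
    have : p = [] := (List.append_eq_nil_iff.1 ht).1
    rw [this]
    exact h
  · simp [Srf.wsum]

theorem far_step {k : ℕ} {x y : Wm m} {z : ℤ} (h : Far k x y z) (j : Lab m)
    (hj : k ≤ UWW.len (y * sg j)) : Far k x (y * sg j) (z + inc y (y * sg j)) := by
  obtain ⟨l, h1, h2, h3⟩ := h
  refine ⟨l ++ [j], ?_, ?_, ?_⟩
  · rw [walk_snoc, h1]
    rfl
  · intro p hp
    rcases pre_snoc hp with rfl | hp
    · rw [walk_snoc, h1]
      exact hj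
    · exact h2 p hp
  · rw [wsum_snoc, h3, h1]
    rfl

theorem far_ind {k : ℕ} {x : Wm m} {Q : Wm m → ℤ → Prop} (h0 : Q x 0)
    (h1 : ∀ y z j, Far k x y z → Q y z → k ≤ UWW.len (y * sg j) →
      Q (y * sg j) (z + inc y (y * sg j))) {y : Wm m} {z : ℤ} (h : Far k x y z) : Q y z := by
  obtain ⟨l, h2, h3, h4⟩ := h
  induction l using List.reverseRecOn generalizing y z with
  | nil =>
    have e1 : y = x := h2.symm
    have e2 : z = 0 := by rw [← h4]; simp [Srf.wsum]
    rw [e1, e2]
    exact h0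
  | append_singleton l j ih =>
    rw [walk_snoc] at h2
    rw [wsum_snoc] at h4
    have h5 : ∀ p, p <+: l → k ≤ UWW.len (walk nW x p) := by
      rintro p ⟨t, ht⟩
      exact h3 p ⟨t ++ [j], by rw [← List.append_assoc, ht]⟩
    have h6 := ih rfl h5 rfl
    have h7 : k ≤ UWW.len (walk nW x l * sg j) := by
      have := h3 (l ++ [j]) ⟨[], List.append_nil _⟩
      rw [walk_snoc] at this
      exact this
    have h8 := h1 _ _ j ⟨l, rfl, h5, rfl⟩ h6 h7
    rw [← h2, ← h4]
    exact h8

private lemma far_len {k : ℕ} {x y : Wm m} {z : ℤ} (h : Far k x y z) :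
    k ≤ UWW.len x ∧ k ≤ UWW.len y := by
  obtain ⟨l, h2, h3, h4⟩ := h
  refine ⟨h3 [] ⟨l, rfl⟩, ?_⟩
  rw [← h2]
  exact h3 l ⟨[], List.append_nil _⟩

theorem far_trans {k : ℕ} {x y u : Wm m} {z z' : ℤ} (h : Far k x y z) (h' : Far k y u z') :
    Far k x u (z + z') := by
  refine far_ind (Q := fun u z' => Far k x u (z + z')) ?_ ?_ h'
  · rw [add_zero]
    exact h
  · intro v a j _ h2 h3
    rw [← add_assoc]
    exact far_step h2 j h3

private lemma ne_of_len {k : ℕ} (hk : 1 ≤ k) {w : Wm m} (h : k ≤ UWW.len w) : w ≠ 1 := by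
  rintro rfl
  rw [UWW.len_one] at h
  omega

private lemma ss (w : Wm m) (j : Lab m) : w * sg j * sg j = w := UWW.mul_s_mul_s j w

theorem far_symm (hm : 100 ≤ m) {k : ℕ} (hk : 1 ≤ k) {x y : Wm m} {z : ℤ} (h : Far k x y z) :
    Far k y x (-z) := by
  have hx := (far_len h).1
  refine far_ind (Q := fun y z => Far k y x (-z)) ?_ ?_ h
  · rw [neg_zero]
    exact far_refl hx
  · intro v a j h1 h2 h3
    have h4 := (far_len h1).2
    have h5 := far_step (far_refl h3) j (by rw [ss]; exact h4)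
    rw [ss, inc_neg hm (ne_of_len hk h4) (ne_of_len hk h3)] at h5
    have h6 := far_trans h5 h2
    have e : (0 : ℤ) + -inc v (v * sg j) + -a = -(a + inc v (v * sg j)) := by ring
    rw [e] at h6
    exact h6

/-! ### Labels -/

private lemma one_ne (hm : 100 ≤ m) (i : Lab m) : i + 1 ≠ i := by
  intro h
  have h1 : (1 : Lab m) = 0 := by
    have := congrArg (fun t => t - i) h
    simpa using this
  have h2 := cd_one' hm
  rw [h1, cd_zero] at h2
  omega

private lemma len_up {w : Wm m} {j : Lab m} (h : j ∉ UWW.Rd w) :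
    UWW.len (w * sg j) = UWW.len w + 1 := by
  rcases UWW.len_mul_s w j with h1 | h1
  · exact h1.2
  · exact absurd h1.1 h

theorem corner_walk (hm : 100 ≤ m) {k : ℕ} (hk : 1 ≤ k) {z : Wm m} (hz : UWW.len z = k)
    {i : Lab m} (hi : i ∉ UWW.Rd z) (hi' : i + 1 ∉ UWW.Rd z) :
    Far (k + 1) (z * sg i) (z * sg (i + 1)) (inc z (z * sg (i + 1)) - inc z (z * sg i)) := by
  have h1 := len_up hi
  have h2 := len_up hi'
  have h3 : i + 1 ∉ UWW.Rd (z * sg i) := by
    rw [UWW.Rd_mul_s hi]
    rintro (h | h)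
    · exact one_ne hm i h
    · exact hi' h.1
  have h4 := len_up h3
  have h5 : UWW.len (z * sg (i + 1) * sg i) = UWW.len (z * sg i) + 1 := by
    rw [← sg_comm3]; exact h4
  have h6 := far_step (k := k + 1) (far_refl (x := z * sg i) (by omega)) (i + 1) (by omega)
  have h7 := far_step h6 i (by rw [sg_comm3, ss]; omega)
  rw [sg_comm3, ss] at h7
  have hne : z * sg (i + 1) ≠ 1 := ne_of_len (k := 1) le_rfl (by omega)
  have hne' : z * sg (i + 1) * sg i ≠ 1 := ne_of_len (k := 1) le_rfl (by omega)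
  rw [inc_neg hm hne hne'] at h7
  have h8 := inc_square hm (w := z) (i := i) (by
    intro x hx
    rw [sqv_eq] at hx
    simp only [Set.mem_insert_iff, Set.mem_singleton_iff] at hx
    rcases hx with rfl | rfl | rfl | rfl
    · exact ne_of_len (k := 1) le_rfl (by omega)
    · exact ne_of_len (k := 1) le_rfl (by omega)
    · exact ne_of_len (k := 1) le_rfl (by omega)
    · exact ne_of_len (k := 1) le_rfl (by omega))
  rw [sg_comm3] at h8
  have e : (0 : ℤ) + inc (z * sg i) (z * sg (i + 1) * sg i) +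
      -inc (z * sg (i + 1)) (z * sg (i + 1) * sg i) =
      inc z (z * sg (i + 1)) - inc z (z * sg i) := by linarith
  rw [e] at h7
  exact h7

private lemma cast_inj' {a b : ℕ} (ha : a ≤ 8 * m) (hb : b ≤ 8 * m)
    (h : ((a : ℕ) : Lab m) = ((b : ℕ) : Lab m)) : a = b := by
  have h1 := congrArg ZMod.val h
  rwa [ZMod.val_natCast_of_lt (by omega), ZMod.val_natCast_of_lt (by omega)] at h1

private lemma around_aux (hm : 100 ≤ m) {k : ℕ} (hk : 1 ≤ k) {z : Wm m} (hz : UWW.len z = k)
    (i : Lab m) (n : ℕ) (h : ∀ s : ℕ, s ≤ n → i + (s : Lab m) ∉ UWW.Rd z) :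
    Far (k + 1) (z * sg i) (z * sg (i + (n : Lab m)))
      (inc z (z * sg (i + (n : Lab m))) - inc z (z * sg i)) := by
  induction n with
  | zero =>
    have h0 := h 0 le_rfl
    rw [Nat.cast_zero, add_zero] at h0 ⊢
    rw [sub_self]
    exact far_refl (by have := len_up h0; omega)
  | succ n ih =>
    have h1 := ih fun s hs => h s (hs.trans (Nat.le_succ n))
    have h2 := h n (Nat.le_succ n)
    have h3 := h (n + 1) le_rfl
    have e : i + ((n + 1 : ℕ) : Lab m) = i + (n : Lab m) + 1 := by push_cast; ring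
    rw [e] at h3 ⊢
    have h4 := far_trans h1 (corner_walk hm hk hz h2 h3)
    have e2 : inc z (z * sg (i + (n : Lab m))) - inc z (z * sg i) +
        (inc z (z * sg (i + (n : Lab m) + 1)) - inc z (z * sg (i + (n : Lab m)))) =
        inc z (z * sg (i + (n : Lab m) + 1)) - inc z (z * sg i) := by ring
    rw [e2] at h4
    exact h4

theorem around (hm : 100 ≤ m) {k : ℕ} (hk : 1 ≤ k) {z : Wm m} (hz : UWW.len z = k)
    {i j : Lab m} (hi : i ∉ UWW.Rd z) (hj : j ∉ UWW.Rd z) :
    Far (k + 1) (z * sg i) (z * sg j) (inc z (z * sg j) - inc z (z * sg i)) := by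
  have hz1 : z⁻¹ ≠ 1 := by
    intro h
    exact ne_of_len hk hz.ge (inv_eq_one.1 h)
  obtain ⟨r, hr, hrs⟩ : ∃ r : Lab m, r ∈ UWW.Rd z ∧ ∀ a ∈ UWW.Rd z, a = r ∨ a = r + 1 := by
    rw [UWW.Rd_eq]
    rcases Ld_cases hm hz1 with ⟨r, h⟩ | ⟨r, h⟩
    · exact ⟨r, by rw [h]; rfl, fun a ha => by rw [h] at ha; exact Or.inl ha⟩
    · exact ⟨r, by rw [h]; exact Or.inl rfl, fun a ha => by rw [h] at ha; exact ha⟩
  have hval : ∀ a : Lab m, a ∉ UWW.Rd z → ∃ t : ℕ, 1 ≤ t ∧ t ≤ 8 * m ∧ a = r + (t : Lab m) := by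
    intro a ha
    refine ⟨(a - r).val, ?_, ?_, ?_⟩
    · rw [Nat.one_le_iff_ne_zero]
      intro h
      rw [ZMod.val_eq_zero, sub_eq_zero] at h
      exact ha (h ▸ hr)
    · have := ZMod.val_lt (a - r)
      omega
    · rw [ZMod.natCast_zmod_val]
      ring
  obtain ⟨s, hs1, hs2, rfl⟩ := hval i hi
  obtain ⟨t, ht1, ht2, rfl⟩ := hval j hj
  have key : ∀ s t : ℕ, 1 ≤ s → s ≤ t → t ≤ 8 * m → r + (s : Lab m) ∉ UWW.Rd z →
      Far (k + 1) (z * sg (r + (s : Lab m))) (z * sg (r + (t : Lab m)))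
        (inc z (z * sg (r + (t : Lab m))) - inc z (z * sg (r + (s : Lab m)))) := by
    intro s t hs hst ht hns
    have h1 := around_aux hm hk hz (r + (s : Lab m)) (t - s) (by
      intro a ha hmem
      have e : r + (s : Lab m) + (a : Lab m) = r + ((s + a : ℕ) : Lab m) := by push_cast; ring
      rw [e] at hmem
      rcases hrs _ hmem with h | h
      · have h2 : ((s + a : ℕ) : Lab m) = ((0 : ℕ) : Lab m) := by
          rw [Nat.cast_zero]
          exact left_eq_add.1 h.symm
        have h3 := cast_inj' (by omega) (by omega) h2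
        omega
      · have h2 : ((s + a : ℕ) : Lab m) = ((1 : ℕ) : Lab m) := by
          rw [Nat.cast_one]
          exact add_left_cancel h
        have h3 := cast_inj' (by omega) (by omega) h2
        have h4 : a = 0 := by omega
        rw [h4, add_zero] at hmem
        exact hns hmem)
    have e : r + (s : Lab m) + ((t - s : ℕ) : Lab m) = r + (t : Lab m) := by
      rw [add_assoc, ← Nat.cast_add]
      congr 2
      omega
    rw [e] at h1
    exact h1
  rcases le_total s t with h | h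
  · exact key s t hs1 h ht2 hi
  · have h1 := far_symm hm (by omega) (key t s ht1 h hs2 hj)
    rw [neg_sub] at h1
    exact h1

theorem push (hm : 100 ≤ m) {k : ℕ} (hk : 1 ≤ k) {x y : Wm m} {z : ℤ}
    (hx : k + 1 ≤ UWW.len x) (h : Far k x y z) :
    (k + 1 ≤ UWW.len y → Far (k + 1) x y z) ∧
      (UWW.len y = k → ∀ j, j ∉ UWW.Rd y → Far (k + 1) x (y * sg j) (z + inc y (y * sg j))) := by
  refine far_ind (Q := fun y z => (k + 1 ≤ UWW.len y → Far (k + 1) x y z) ∧
      (UWW.len y = k → ∀ j, j ∉ UWW.Rd y →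
        Far (k + 1) x (y * sg j) (z + inc y (y * sg j)))) ?_ ?_ h
  · exact ⟨fun _ => far_refl hx, fun h => by omega⟩
  · intro v a j h1 h2 h3
    have h4 := (far_len h1).2
    rcases Nat.lt_or_ge k (UWW.len v) with h5 | h5
    · refine ⟨fun h6 => far_step (h2.1 h5) j h6, fun h6 i hi => ?_⟩
      have h7 : j ∉ UWW.Rd (v * sg j) := by
        intro h8
        have h9 : UWW.len (v * sg j * sg j) < UWW.len (v * sg j) := h8
        rw [ss] at h9
        omega
      have h8 := around hm hk h6 h7 hi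
      rw [ss, inc_neg hm (ne_of_len hk h4) (ne_of_len hk h3)] at h8
      have h9 := far_trans (h2.1 h5) h8
      have e : a + (inc (v * sg j) (v * sg j * sg i) - -inc v (v * sg j)) =
          a + inc v (v * sg j) + inc (v * sg j) (v * sg j * sg i) := by ring
      rw [e] at h9
      exact h9
    · have h6 : UWW.len v = k := le_antisymm h5 h4
      rcases UWW.len_mul_s v j with h7 | h7
      · refine ⟨fun _ => h2.2 h6 j h7.1, fun h8 => ?_⟩
        exfalso
        have h9 := h7.2
        change UWW.len (v * sg j) = UWW.len v + 1 at h9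
        omega
      · exfalso
        have h9 := h7.2
        change UWW.len (v * sg j) + 1 = UWW.len v at h9
        omega

private lemma Ld_sg (hm : 100 ≤ m) (i : Lab m) : UWW.Ld (sg i : Wm m) = {i} := by
  have h := Ld_nice hm (i := i) (l := []) (List.isChain_singleton i)
  rw [UWW.pr_cons, UWW.pr_nil, mul_one] at h
  exact h

private lemma th_sg (hm : 100 ≤ m) (i : Lab m) : th (sg i : Wm m) = dbl i :=
  th_single hm (Ld_sg hm i)

private lemma th_sgsg (hm : 100 ≤ m) (i : Lab m) :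
    th (sg i * sg (i + 1) : Wm m) = dbl i + 1 := by
  refine th_pair hm ?_
  have h1 : i ∉ UWW.Ld (sg (i + 1) : Wm m) := by
    rw [Ld_sg hm]
    intro h
    exact one_ne hm i h.symm
  ext a
  rw [UWW.Ld_s_mul h1, Ld_sg hm]
  constructor
  · rintro (h | h)
    · exact Or.inl h
    · exact Or.inr h.1
  · rintro (h | h)
    · exact Or.inl h
    · refine Or.inr ⟨h, ?_⟩
      rw [h]
      change cd (i + 1 - i) = 1
      rw [add_sub_cancel_left]
      exact cd_one' hm

private lemma ring_aux (hm : 100 ≤ m) (t : ℕ) :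
    Far 1 (sg 0 : Wm m) (sg (t : Lab m)) (2 * (t : ℤ)) := by
  induction t with
  | zero =>
    rw [Nat.cast_zero, Nat.cast_zero, mul_zero]
    exact far_refl (len_sg 0).ge
  | succ t ih =>
    have h1 := far_step ih ((t : Lab m) + 1) (by rw [len_sgsg hm]; norm_num)
    have e1 : (sg (t : Lab m) : Wm m) * sg ((t : Lab m) + 1) * sg (t : Lab m) =
        sg ((t : Lab m) + 1) := by
      rw [sg_comm, ss]
    have h2 := far_step h1 (t : Lab m) (by rw [e1, len_sg])
    rw [e1] at h2
    have i1 : inc (sg (t : Lab m) : Wm m) (sg (t : Lab m) * sg ((t : Lab m) + 1)) = 1 := by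
      refine inc_of ?_ (by rw [Int.natAbs_one]; omega)
      rw [th_sg hm, th_sgsg hm]
      push_cast
      ring
    have i2 : inc (sg (t : Lab m) * sg ((t : Lab m) + 1) : Wm m) (sg ((t : Lab m) + 1)) = 1 := by
      refine inc_of ?_ (by rw [Int.natAbs_one]; omega)
      rw [th_sg hm, th_sgsg hm, dbl_add, dbl_one hm]
      push_cast
      ring
    rw [i1, i2] at h2
    have e2 : 2 * (t : ℤ) + 1 + 1 = 2 * ((t + 1 : ℕ) : ℤ) := by push_cast; ring
    rw [e2] at h2
    rw [Nat.cast_succ (R := Lab m)]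
    exact h2

theorem ring (hm : 100 ≤ m) :
    Far 1 (sg 0 : Wm m) (sg 0) (2 * (8 * (m : ℤ) + 1)) := by
  have h := ring_aux hm (8 * m + 1)
  have e : ((8 * m + 1 : ℕ) : Lab m) = 0 := ZMod.natCast_self (8 * m + 1)
  rw [e] at h
  have e2 : (2 * ((8 * m + 1 : ℕ) : ℤ)) = 2 * (8 * (m : ℤ) + 1) := by push_cast; ring
  rw [e2] at h
  exact h

private lemma exists_nice (hm : 100 ≤ m) (n : ℕ) :
    (∃ l : List (Lab m), l.length = n ∧ NiceW (0 :: l)) ∧
      ∃ l : List (Lab m), l.length = n ∧ NiceW ((m : Lab m) :: l) := by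
  have h0 : cd (m : Lab m) = m := by
    have := cd_intCast (m := m) (m : ℤ) (by rw [Int.natAbs_natCast]; omega)
    rwa [Int.cast_natCast, Int.natAbs_natCast] at this
  induction n with
  | zero => exact ⟨⟨[], rfl, List.isChain_singleton _⟩, ⟨[], rfl, List.isChain_singleton _⟩⟩
  | succ n ih =>
    obtain ⟨⟨l, h1, h2⟩, ⟨l', h1', h2'⟩⟩ := ih
    refine ⟨⟨(m : Lab m) :: l', by simp [h1'], ?_⟩, ⟨0 :: l, by simp [h1], ?_⟩⟩
    · rw [nice_cons]
      refine ⟨?_, h2'⟩
      rw [zero_sub, cd_neg, h0]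
      omega
    · rw [nice_cons]
      refine ⟨?_, h2⟩
      rw [sub_zero, h0]
      omega

/-- Loops far from `1` which wind around `1`. -/
theorem far_loop (hm : 100 ≤ m) (R : ℕ) :
    ∃ (w : Wm m) (l : List (Lab m)), walk nW w l = w ∧
      (∀ p, p <+: l → R + 1 ≤ UWW.len (walk nW w p)) ∧
      Srf.wsum (fun x y : Wm m => (th y - th x).valMinAbs) (l.scanl nW w) ≠ 0 := by
  obtain ⟨l, hl, hn⟩ := (exists_nice hm (R + 1)).1
  have hlen : ∀ p, p <+: l → UWW.len (walk nW (sg 0 : Wm m) p) = p.length + 1 := by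
    rintro p ⟨t, ht⟩
    have h1 : NiceW (0 :: p) := by
      have h2 : NiceW ((0 :: p) ++ t) := by
        rw [List.cons_append, ht]
        exact hn
      exact List.IsChain.left_of_append h2
    have h3 := len_nice hm h1
    rw [UWW.pr_cons] at h3
    rw [walk_nW, h3, List.length_cons]
  have hx : UWW.len (walk nW (sg 0 : Wm m) l) = R + 2 := by
    rw [hlen l ⟨[], List.append_nil _⟩, hl]
  obtain ⟨x, hxd⟩ : ∃ x, x = walk nW (sg 0 : Wm m) l := ⟨_, rfl⟩
  rw [← hxd] at hx
  have h1 : Far 1 (sg 0 : Wm m) x (Srf.wsum inc (l.scanl nW (sg 0 : Wm m))) :=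
    ⟨l, hxd.symm, fun p hp => by rw [hlen p hp]; omega, rfl⟩
  have h2 := far_trans (far_trans (far_symm hm le_rfl h1) (ring hm)) h1
  have h3 : Far 1 x x (2 * (8 * (m : ℤ) + 1)) := by
    have e : ∀ s r : ℤ, -s + r + s = r := fun s r => by ring
    rw [e] at h2
    exact h2
  have h4 : ∀ n, n ≤ R → Far (n + 1) x x (2 * (8 * (m : ℤ) + 1)) := by
    intro n
    induction n with
    | zero => exact fun _ => h3
    | succ n ih =>
      intro hn
      exact (push hm (by omega) (by omega) (ih (by omega))).1 (by omega)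
  obtain ⟨l', h5, h6, h7⟩ := h4 R le_rfl
  refine ⟨x, l', h5, h6, ?_⟩
  change Srf.wsum inc (l'.scanl nW x) ≠ 0
  rw [h7]
  omega

end URW
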