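import Pool.Agent.URW.Cox.Defs

/-!
# URW Cox/Lnk (package, 1 h): linked pairs of labels

PROOFS. Everything follows from `(a - b).val` arithmetic in `ZMod (8 m + 1)`: for `a ≠ b`,
`(b - a).val = 8 m + 1 - (a - b).val` (`ZMod.neg_val`), and `(a + b).val = a.val + b.val` or that minus `8 m + 1`
(`ZMod.val_add`). `swap_left`: for `u ≠ v` and `z ≠ u, v`: `arc u v z ↔ ¬ arc v u z` (`(z - v).val = (z - u).val - (v - u).val`
if this is nonnegative, plus `8 m + 1` otherwise). `swap_right`: trivial. `lnk_of_cd`: translate by `c - j` …: put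
`t = i - j`, `0 < |t| < |c|`; the four labels are (after subtracting `j - c`) `0, c, t, t + c`; `arc 0 c t` or
`arc 0 c (t + c)`, exactly one of them, depending on the signs of `t` and `c` (`cd c = min c.val (8 m + 1 - c.val)`).
-/

set_option autoImplicit false

namespace URW

variable {m : ℕ}

theorem cd_val (c : Lab m) : cd c = min c.val (8 * m + 1 - c.val) := by
  exact ZMod.valMinAbs_natAbs_eq_min c

private theorem neg_val' {a : Lab m} (h : a ≠ 0) : (-a).val = 8 * m + 1 - a.val := by
  rw [ZMod.neg_val, if_neg h]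

private theorem add_val' (a b : Lab m) :
    (a + b).val = a.val + b.val ∧ a.val + b.val < 8 * m + 1 ∨
      (a + b).val = a.val + b.val - (8 * m + 1) ∧ 8 * m + 1 ≤ a.val + b.val := by
  have ha := ZMod.val_lt a
  have hb := ZMod.val_lt b
  rw [ZMod.val_add]
  rcases Nat.lt_or_ge (a.val + b.val) (8 * m + 1) with h | h
  · exact Or.inl ⟨Nat.mod_eq_of_lt h, h⟩
  · refine Or.inr ⟨?_, h⟩
    rw [Nat.mod_eq_sub_mod h, Nat.mod_eq_of_lt (by omega)]

private theorem val_pos' {a : Lab m} (h : a ≠ 0) : 0 < a.val :=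
  Nat.pos_of_ne_zero fun h' => h ((ZMod.val_eq_zero a).1 h')

theorem arc_swap {u v z : Lab m} (huv : u ≠ v) (hu : z ≠ u) (hv : z ≠ v) :
    arc u v z ↔ ¬ arc v u z := by
  unfold arc
  have h1 : u - v = -(v - u) := (neg_sub v u).symm
  have h2 : z - u = (z - v) + (v - u) := (sub_add_sub_cancel z v u).symm
  have h3 := neg_val' (sub_ne_zero.2 huv.symm)
  rw [← h1] at h3
  have h4 := add_val' (z - v) (v - u)
  rw [← h2] at h4
  have h5 := val_pos' (sub_ne_zero.2 huv.symm)
  have h6 := val_pos' (sub_ne_zero.2 hu)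
  have h7 := val_pos' (sub_ne_zero.2 hv)
  have h8 := ZMod.val_lt (z - v)
  have h9 := ZMod.val_lt (v - u)
  omega

theorem Lnk.swap_left {u v y z : Lab m} (h : Lnk u v y z) : Lnk v u y z := by
  obtain ⟨h1, h2, h3, h4, h5⟩ := h
  have huv : u ≠ v := by
    rintro rfl
    have h6 : ∀ w, ¬ arc u u w := by
      intro w hw
      have h7 := hw.2
      rw [sub_self, ZMod.val_zero] at h7
      exact absurd h7 (Nat.not_lt_zero _)
    rcases h5 with h5 | h5
    · exact h6 _ h5.1
    · exact h6 _ h5.1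
  have h6 := arc_swap huv h1 h2
  have h7 := arc_swap huv h3 h4
  refine ⟨h2, h1, h4, h3, ?_⟩
  tauto

theorem Lnk.swap_right {u v y z : Lab m} (h : Lnk u v y z) : Lnk u v z y := by
  obtain ⟨h1, h2, h3, h4, h5⟩ := h
  exact ⟨h3, h4, h1, h2, h5.symm⟩

/-- The chords `{i - c, i}` and `{j - c, j}` are linked if `0 < |i - j| < |c|`. -/
theorem lnk_of_cd {i j c : Lab m} (hij : i ≠ j) (h : cd (i - j) < cd c) :
    Lnk (j - c) j (i - c) i := by
  have hc : c ≠ 0 := by
    rintro rfl
    rw [cd_zero] at h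
    exact absurd h (Nat.not_lt_zero _)
  refine ⟨fun h' => hij (sub_left_injective h'), fun h' => ?_, fun h' => ?_, hij, ?_⟩
  · have e : i - j = c := by rw [← h', sub_sub_cancel]
    rw [e] at h
    exact lt_irrefl _ h
  · have e : i - j = -c := by rw [h', sub_sub, sub_add_eq_sub_sub_swap, sub_self, zero_sub]
    rw [e, cd_neg] at h
    exact lt_irrefl _ h
  · have e1 : i - c - (j - c) = i - j := sub_sub_sub_cancel_right i j c
    have e2 : i - (j - c) = (i - j) + c := by rw [sub_sub_eq_add_sub, add_sub_right_comm]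
    have e3 : j - (j - c) = c := sub_sub_cancel j c
    unfold arc
    rw [e1, e2, e3]
    rw [cd_val, cd_val] at h
    have h1 := val_pos' (sub_ne_zero.2 hij)
    have h2 := val_pos' hc
    have h3 := ZMod.val_lt (i - j)
    have h4 := ZMod.val_lt c
    have h5 := add_val' (i - j) c
    omega

end URW
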