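import Pool.Agent.URW.Cox.Tri
import Pool.Agent.URW.Cox.Lnk

/-!
# URW Cox/Link (package, 2.5 h): links are cycles, the cyclic order at a vertex

PROOFS. At `inl g`, `g` even, the rotation `T (inl g) p q` is `g s_i → s i → g s_{i+1}` (`s i = sqv nW g i`) for all `i`
(`T_inl`); for odd `g` it is the reverse. At a centre `inr s`, `s = sqv nW w i`, `w` even (replace `w` by `w s_i` if it is odd,
`sq_corner'`), it is `w → w s_i → w s_i s_{i+1} → w s_{i+1} → w`
(`T_inr`: `(w, i)`, `(w s_i, i+1)`, `(w s_i s_{i+1}, i)`, `(w s_{i+1}, i+1)`; parities by `even_step`).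
* `link_inl`: `ReflTransGen`: by induction on `t : ℕ` all `g s_{i + t}` (resp. `g s_{i - t}`) and the centres between are
  reached from `g s_i`; every neighbour of `inl g` is a `g s_j` or an `s j`; `j = i + (j - i).val`.
* `link_inr`: the four corners in cyclic order; every neighbour of `inr s` is a corner (`adj_inr'`).
* `locfin_plane`: neighbours of `inl g`: the finite set of the `g s_j` and `s j`; neighbours of `inr s`: corners of the
  square `s` (a finite set).
* `btw_plane` (even `x`; the odd case is the same with the reversed rotation): `TransGen (p → q, q ≠ x s_v)` from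
  `x s_u`: the set of the reached elements is `{s (u + t) | t < d} ∪ {x s_{u+t} | 1 ≤ t < d}`, `d = (v - u).val` (`u ≠ v`, so
  `1 ≤ d ≤ 8 m`): `⊆` by `TransGen` induction with `T_inl` (the rotation is a function of `p`: from `x s_i` only to `s i`, from
  `s i` only to `x s_{i+1}`, by `sg_inj`, `sq_inj`; the step to `x s_{u + d} = x s_v` is forbidden), `⊇` by induction on `t`.
  `x s_y` is in it iff `y = u + t`, `1 ≤ t < d`, iff `0 < (y - u).val < (v - u).val`. For odd `x`: iff `y = u - t`,
  `1 ≤ t < (u - v).val`, i.e. `0 < (u - y).val < (u - v).val`, which for `y ≠ v` is `arc v u y` (`arc_swap` or arithmetic).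
-/

set_option autoImplicit false

namespace URW

variable {m : ℕ}

section generic

variable {X : Type}

/-- the rotation at a vertex -/
private def lkR (a b : Lab m → X) (p q : X) : Prop :=
  ∃ i, (p = a i ∧ q = b i) ∨ (p = b i ∧ q = a (i + 1))

private theorem lk_val_cast {t : ℕ} (ht : t < 8 * m + 1) : ((t : ℕ) : Lab m).val = t := by
  rw [ZMod.val_natCast, Nat.mod_eq_of_lt ht]

private theorem lk_rtg_aa (a b : Lab m → X) (i j : Lab m) :
    Relation.ReflTransGen (lkR a b) (a i) (a j) := by
  have key : ∀ t : ℕ, Relation.ReflTransGen (lkR a b) (a i) (a (i + t)) := by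
    intro t
    induction t with
    | zero => simpa using Relation.ReflTransGen.refl
    | succ t ih =>
      refine (ih.tail (b := a (i + t)) (c := b (i + t)) ⟨i + t, Or.inl ⟨rfl, rfl⟩⟩).tail
        ⟨i + t, Or.inr ⟨rfl, ?_⟩⟩
      push_cast
      rw [add_assoc]
  have h := key (j - i).val
  rw [ZMod.natCast_zmod_val, add_sub_cancel] at h
  exact h

private theorem lk_rtg (a b : Lab m → X) {y y' : X} (h : ∃ i, y = a i ∨ y = b i)
    (h' : ∃ i, y' = a i ∨ y' = b i) : Relation.ReflTransGen (lkR a b) y y' := by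
  obtain ⟨i, hi⟩ := h
  obtain ⟨j, hj⟩ := h'
  have h1 : ∃ k, Relation.ReflTransGen (lkR a b) y (a k) := by
    rcases hi with rfl | rfl
    · exact ⟨i, Relation.ReflTransGen.refl⟩
    · exact ⟨i + 1, Relation.ReflTransGen.single ⟨i, Or.inr ⟨rfl, rfl⟩⟩⟩
  have h2 : Relation.ReflTransGen (lkR a b) (a j) y' := by
    rcases hj with rfl | rfl
    · exact Relation.ReflTransGen.refl
    · exact Relation.ReflTransGen.single ⟨j, Or.inl ⟨rfl, rfl⟩⟩
  obtain ⟨k, hk⟩ := h1
  exact (hk.trans (lk_rtg_aa a b k j)).trans h2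

private theorem lk_btw {a b : Lab m → X} (ha : Function.Injective a)
    (hb : Function.Injective b) (hab : ∀ i j, a i ≠ b j) {u v y : Lab m} (huv : u ≠ v) :
    Relation.TransGen (fun p q => lkR a b p q ∧ q ≠ a v) (a u) (a y) ↔ arc u v y := by
  have hd0 : 0 < (v - u).val := by
    rw [Nat.pos_iff_ne_zero]
    intro h0
    rw [ZMod.val_eq_zero, sub_eq_zero] at h0
    exact huv h0.symm
  have hdN : (v - u).val < 8 * m + 1 := ZMod.val_lt _
  set d := (v - u).val with hd
  have hvd : v = u + (d : ℕ) := by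
    rw [hd, ZMod.natCast_zmod_val, add_sub_cancel]
  have hne : ∀ t : ℕ, t < d → a (u + t) ≠ a v := by
    intro t ht h
    have h1 := ha h
    rw [hvd] at h1
    have h2 := add_left_cancel h1
    have h3 := congrArg ZMod.val h2
    rw [lk_val_cast (ht.trans hdN), lk_val_cast hdN] at h3
    omega
  constructor
  · intro h
    have key : ∀ q, Relation.TransGen (fun p q => lkR a b p q ∧ q ≠ a v) (a u) q →
        (∃ t : ℕ, t < d ∧ q = b (u + t)) ∨ (∃ t : ℕ, 1 ≤ t ∧ t < d ∧ q = a (u + t)) := by
      intro q hq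
      induction hq with
      | single h1 =>
        obtain ⟨⟨i, h2 | h2⟩, h3⟩ := h1
        · left
          refine ⟨0, hd0, ?_⟩
          have := ha h2.1
          rw [h2.2, ← this]
          simp
        · exact absurd h2.1 (hab _ _)
      | tail _ h1 ih =>
        obtain ⟨⟨i, h2 | h2⟩, h3⟩ := h1
        · rcases ih with ⟨t, ht, hq⟩ | ⟨t, ht1, ht, hq⟩
          · rw [h2.1] at hq
            exact absurd hq (hab _ _)
          · left
            refine ⟨t, ht, ?_⟩
            rw [h2.1] at hq
            rw [h2.2, ha hq]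
        · rcases ih with ⟨t, ht, hq⟩ | ⟨t, ht1, ht, hq⟩
          · right
            rw [h2.1] at hq
            have hi := hb hq
            refine ⟨t + 1, by omega, ?_, ?_⟩
            · by_contra hc
              have htd : t + 1 = d := by omega
              apply h3
              rw [h2.2, hi, hvd, ← htd]
              push_cast
              rw [add_assoc]
            · rw [h2.2, hi]
              push_cast
              rw [add_assoc]
          · rw [h2.1] at hq
            exact absurd hq.symm (hab _ _)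
    rcases key _ h with ⟨t, ht, hq⟩ | ⟨t, ht1, ht, hq⟩
    · exact absurd hq (hab _ _)
    · have hy := ha hq
      unfold arc
      rw [hy, add_sub_cancel_left, lk_val_cast (ht.trans hdN)]
      exact ⟨ht1, ht⟩
  · rintro ⟨h1, h2⟩
    have key : ∀ t : ℕ, t < d → Relation.TransGen (fun p q => lkR a b p q ∧ q ≠ a v) (a u)
        (b (u + t)) := by
      intro t
      induction t with
      | zero =>
        intro _
        refine Relation.TransGen.single ⟨⟨u, Or.inl ⟨rfl, by simp⟩⟩, fun h => ?_⟩
        exact hab _ _ h.symm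
      | succ t ih =>
        intro ht
        refine ((ih (by omega)).tail (c := a (u + ((t + 1 : ℕ) : Lab m)))
          ⟨⟨u + t, Or.inr ⟨rfl, ?_⟩⟩, hne _ ht⟩).tail
          ⟨⟨_, Or.inl ⟨rfl, rfl⟩⟩, fun h => hab _ _ h.symm⟩
        push_cast
        rw [add_assoc]
    obtain ⟨t, ht⟩ : ∃ t, (y - u).val = t + 1 := ⟨(y - u).val - 1, by omega⟩
    have hy : y = u + ((t + 1 : ℕ) : Lab m) := by
      rw [← ht, ZMod.natCast_zmod_val, add_sub_cancel]
    rw [hy]
    refine (key t (by omega)).tail ⟨⟨u + t, Or.inr ⟨rfl, ?_⟩⟩, hne _ (by omega)⟩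
    push_cast
    rw [add_assoc]

private theorem lk_arc_neg {u v y : Lab m} (hyu : y ≠ u) (hyv : y ≠ v) :
    arc (-u) (-v) (-y) ↔ arc v u y := by
  unfold arc
  rw [show -y - -u = u - y by ring, show -v - -u = u - v by ring]
  have hA : 0 < (u - y).val := by
    rw [Nat.pos_iff_ne_zero]
    intro h0
    rw [ZMod.val_eq_zero, sub_eq_zero] at h0
    exact hyu h0.symm
  have hC : 0 < (y - v).val := by
    rw [Nat.pos_iff_ne_zero]
    intro h0
    rw [ZMod.val_eq_zero, sub_eq_zero] at h0
    exact hyv h0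
  have hA' : (u - y).val < 8 * m + 1 := ZMod.val_lt _
  have hC' : (y - v).val < 8 * m + 1 := ZMod.val_lt _
  have hB : (u - v).val = ((u - y).val + (y - v).val) % (8 * m + 1) := by
    rw [← ZMod.val_add, sub_add_sub_cancel]
  rcases lt_or_ge ((u - y).val + (y - v).val) (8 * m + 1) with h | h
  · rw [Nat.mod_eq_of_lt h] at hB
    omega
  · rw [Nat.mod_eq_sub_mod h, Nat.mod_eq_of_lt (by omega)] at hB
    omega

private theorem lk_swap (a b : Lab m → X) (p q : X) :
    lkR (fun i => a (-i)) (fun i => b (-i - 1)) p q ↔ lkR a b q p := by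
  constructor
  · rintro ⟨i, h | h⟩
    · exact ⟨-i - 1, Or.inr ⟨h.2, by rw [h.1, sub_add_cancel]⟩⟩
    · refine ⟨-i - 1, Or.inl ⟨?_, h.1⟩⟩
      rw [h.2]
      simp only
      congr 1
      ring
  · rintro ⟨i, h | h⟩
    · refine ⟨-i - 1, Or.inr ⟨?_, ?_⟩⟩
      · rw [h.2]
        simp only
        congr 1
        ring
      · rw [h.1]
        simp only
        congr 1
        ring
    · refine ⟨-i - 1, Or.inl ⟨?_, ?_⟩⟩
      · rw [h.2]
        simp only
        congr 1
        ring
      · rw [h.1]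
        simp only
        congr 1
        ring

private theorem lk_cyc {R : X → X → Prop} {c0 c1 c2 c3 : X} (h0 : R c0 c1) (h1 : R c1 c2)
    (h2 : R c2 c3) (h3 : R c3 c0) {x y : X} (hx : x = c0 ∨ x = c1 ∨ x = c2 ∨ x = c3)
    (hy : y = c0 ∨ y = c1 ∨ y = c2 ∨ y = c3) : Relation.ReflTransGen R x y := by
  have e1 : Relation.ReflTransGen R c0 c1 := Relation.ReflTransGen.single h0
  have e2 : Relation.ReflTransGen R c0 c2 := e1.tail h1
  have e3 : Relation.ReflTransGen R c0 c3 := e2.tail h2
  have f3 : Relation.ReflTransGen R c3 c0 := Relation.ReflTransGen.single h3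
  have f2 : Relation.ReflTransGen R c2 c0 := Relation.ReflTransGen.head h2 f3
  have f1 : Relation.ReflTransGen R c1 c0 := Relation.ReflTransGen.head h1 f2
  have hx' : Relation.ReflTransGen R x c0 := by
    rcases hx with rfl | rfl | rfl | rfl
    · exact Relation.ReflTransGen.refl
    · exact f1
    · exact f2
    · exact f3
  have hy' : Relation.ReflTransGen R c0 y := by
    rcases hy with rfl | rfl | rfl | rfl
    · exact Relation.ReflTransGen.refl
    · exact e1
    · exact e2
    · exact e3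
  exact hx'.trans hy'

end generic

/-- the neighbours in the group -/
private def lkA (g : Wm m) (i : Lab m) : (plane m).V := Sum.inl (g * sg i)

/-- the centres of the squares -/
private def lkB (g : Wm m) (i : Lab m) : (plane m).V := Sum.inr (sqv nW g i)

private theorem lkA_inj (g : Wm m) : Function.Injective (lkA g) := by
  intro i j h
  have h1 : g * sg i = g * sg j := Sum.inl.inj h
  exact sg_inj (mul_left_cancel h1)

private theorem lkB_inj (hm : 100 ≤ m) (g : Wm m) : Function.Injective (lkB g) := by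
  intro i j h
  have h1 : sqv nW g i = sqv nW g j := Sum.inr.inj h
  exact sq_inj hm g i j h1

private theorem lkAB (g : Wm m) (i j : Lab m) : lkA g i ≠ lkB g j := Sum.inl_ne_inr

private theorem lk_T_even (hm : 100 ≤ m) {g : Wm m} (hg : Even (UWW.len g))
    (p q : (plane m).V) : (plane m).T (Sum.inl g) p q ↔ lkR (lkA g) (lkB g) p q := by
  rw [T_inl hm]
  constructor
  · rintro ⟨i, h | h⟩
    · exact ⟨i, h.2⟩
    · exact absurd hg h.1
  · rintro ⟨i, h⟩
    exact ⟨i, Or.inl ⟨hg, h⟩⟩

private theorem lk_T_odd (hm : 100 ≤ m) {g : Wm m} (hg : ¬ Even (UWW.len g))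
    (p q : (plane m).V) : (plane m).T (Sum.inl g) p q ↔ lkR (lkA g) (lkB g) q p := by
  rw [T_inl hm]
  constructor
  · rintro ⟨i, h | h⟩
    · exact absurd h.1 hg
    · rcases h.2 with h1 | h1
      · exact ⟨i, Or.inl ⟨h1.1, h1.2⟩⟩
      · exact ⟨i, Or.inr ⟨h1.1, h1.2⟩⟩
  · rintro ⟨i, h | h⟩
    · exact ⟨i, Or.inr ⟨hg, Or.inl ⟨h.1, h.2⟩⟩⟩
    · exact ⟨i, Or.inr ⟨hg, Or.inr ⟨h.1, h.2⟩⟩⟩

private theorem lk_nb (hm : 100 ≤ m) {g : Wm m} {y : (plane m).V}
    (h : (plane m).Adj (Sum.inl g) y) : ∃ i, y = lkA g i ∨ y = lkB g i := by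
  obtain ⟨z, hz⟩ := h
  by_cases hg : Even (UWW.len g)
  · rw [lk_T_even hm hg] at hz
    obtain ⟨i, h1 | h1⟩ := hz
    · exact ⟨i, Or.inl h1.1⟩
    · exact ⟨i, Or.inr h1.1⟩
  · rw [lk_T_odd hm hg] at hz
    obtain ⟨i, h1 | h1⟩ := hz
    · exact ⟨i, Or.inr h1.2⟩
    · exact ⟨i + 1, Or.inl h1.2⟩

theorem link_inl (hm : 100 ≤ m) (g : Wm m) {y y' : (plane m).V}
    (h : (plane m).Adj (Sum.inl g) y) (h' : (plane m).Adj (Sum.inl g) y') :
    Relation.ReflTransGen (fun u v => (plane m).T (Sum.inl g) u v) y y' := by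
  have n1 := lk_nb hm h
  have n2 := lk_nb hm h'
  by_cases hg : Even (UWW.len g)
  · have e : (fun u v => (plane m).T (Sum.inl g) u v) = lkR (lkA g) (lkB g) := by
      funext u v
      exact propext (lk_T_even hm hg u v)
    rw [e]
    exact lk_rtg _ _ n1 n2
  · have e : (fun u v => (plane m).T (Sum.inl g) u v) =
        Function.swap (lkR (lkA g) (lkB g)) := by
      funext u v
      exact propext (lk_T_odd hm hg u v)
    rw [e, Relation.reflTransGen_swap]
    exact lk_rtg _ _ n2 n1

theorem link_inr (hm : 100 ≤ m) (s : Set (Wm m)) {y y' : (plane m).V}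
    (h : (plane m).Adj (Sum.inr s) y) (h' : (plane m).Adj (Sum.inr s) y') :
    Relation.ReflTransGen (fun u v => (plane m).T (Sum.inr s) u v) y y' := by
  have hs : ∃ (w : Wm m) (i : Lab m), Even (UWW.len w) ∧ s = sqv nW w i := by
    obtain ⟨w, i, hw⟩ := adj_inr hm h
    by_cases he : Even (UWW.len w)
    · exact ⟨w, i, he, hw⟩
    · refine ⟨w * sg i, i, ?_, ?_⟩
      · rw [even_step]; exact he
      · rw [hw]
        apply sq_corner'
        rw [sqv_eq]
        simp
  obtain ⟨w, i, he, hw⟩ := hs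
  have o1 : ¬ Even (UWW.len (w * sg i)) := by rw [even_step]; exact not_not.mpr he
  have o3 : ¬ Even (UWW.len (w * sg (i + 1))) := by rw [even_step]; exact not_not.mpr he
  have o2 : Even (UWW.len (w * sg i * sg (i + 1))) := by rw [even_step]; exact o1
  have m1 : w * sg i ∈ sqv nW w i := by rw [sqv_eq]; simp
  have m2 : w * sg i * sg (i + 1) ∈ sqv nW w i := by rw [sqv_eq]; simp
  have m3 : w * sg (i + 1) ∈ sqv nW w i := by rw [sqv_eq]; simp
  have t0 : (plane m).T (Sum.inr s) (Sum.inl w) (Sum.inl (w * sg i)) := by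
    rw [T_inr]
    exact ⟨w, i, rfl, rfl, by rw [if_pos he]; exact hw⟩
  have t1 : (plane m).T (Sum.inr s) (Sum.inl (w * sg i)) (Sum.inl (w * sg i * sg (i + 1))) := by
    rw [T_inr]
    exact ⟨w * sg i, i + 1, rfl, rfl, by
      rw [if_neg o1, add_sub_cancel_right, ← sq_corner' m1]; exact hw⟩
  have t2 : (plane m).T (Sum.inr s) (Sum.inl (w * sg i * sg (i + 1)))
      (Sum.inl (w * sg (i + 1))) := by
    rw [T_inr]
    refine ⟨w * sg i * sg (i + 1), i, rfl, ?_, by
      rw [if_pos o2, ← sq_corner' m2]; exact hw⟩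
    congr 1
    rw [mul_assoc w, sg_comm, mul_assoc, mul_assoc, UWW.s_sq, mul_one]
  have t3 : (plane m).T (Sum.inr s) (Sum.inl (w * sg (i + 1))) (Sum.inl w) := by
    rw [T_inr]
    refine ⟨w * sg (i + 1), i + 1, rfl, ?_, by
      rw [if_neg o3, add_sub_cancel_right, ← sq_corner' m3]; exact hw⟩
    congr 1
    rw [mul_assoc, UWW.s_sq, mul_one]
  have hcor : ∀ {z : (plane m).V}, (plane m).Adj (Sum.inr s) z → z = Sum.inl w ∨
      z = Sum.inl (w * sg i) ∨ z = Sum.inl (w * sg i * sg (i + 1)) ∨
      z = Sum.inl (w * sg (i + 1)) := by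
    intro z hz
    obtain ⟨w', hw', rfl⟩ := adj_inr' hz
    rw [hw, sqv_eq] at hw'
    simp only [Set.mem_insert_iff, Set.mem_singleton_iff] at hw'
    rcases hw' with rfl | rfl | rfl | rfl <;> simp
  exact lk_cyc t0 t1 t2 t3 (hcor h) (hcor h')

theorem locfin_plane (hm : 100 ≤ m) (x : (plane m).V) : {y | (plane m).Adj x y}.Finite := by
  have : NeZero (8 * m + 1) := ⟨by omega⟩
  rcases x with g | s
  · refine Set.Finite.subset ((Set.finite_range (lkA g)).union (Set.finite_range (lkB g))) ?_
    intro y hy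
    obtain ⟨i, h | h⟩ := lk_nb hm hy
    · exact Or.inl ⟨i, h.symm⟩
    · exact Or.inr ⟨i, h.symm⟩
  · by_cases hne : ∃ a, (plane m).Adj (Sum.inr s) a
    · obtain ⟨a, ha⟩ := hne
      obtain ⟨w, i, hw⟩ := adj_inr hm ha
      have hf : s.Finite := by
        rw [hw, sqv_eq]
        exact Set.toFinite _
      refine Set.Finite.subset (hf.image (fun w : Wm m => (Sum.inl w : (plane m).V))) ?_
      intro y hy
      obtain ⟨w', hw', rfl⟩ := adj_inr' hy
      exact ⟨w', hw', rfl⟩
    · push Not at hne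
      have : {y | (plane m).Adj (Sum.inr s) y} = ∅ := by
        ext y
        simp only [Set.mem_ofPred_eq, Set.mem_empty_iff_false, iff_false]
        exact hne y
      rw [this]
      exact Set.finite_empty

/-- The cyclic order at a vertex. -/
theorem btw_plane (hm : 100 ≤ m) (x : Wm m) (u v y : Lab m) (huv : u ≠ v) (hyu : y ≠ u)
    (hyv : y ≠ v) :
    (plane m).Btw (Sum.inl x) (Sum.inl (x * sg u)) (Sum.inl (x * sg v)) (Sum.inl (x * sg y)) ↔
      if Even (UWW.len x) then arc u v y else arc v u y := by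
  have h1 : lkA x u ≠ lkA x v := fun h => huv (lkA_inj x h)
  have h2 : lkA x y ≠ lkA x u := fun h => hyu (lkA_inj x h)
  unfold Srf.Btw
  by_cases hg : Even (UWW.len x)
  · rw [if_pos hg]
    have e : (fun p q => (plane m).T (Sum.inl x) p q ∧ q ≠ Sum.inl (x * sg v)) =
        fun p q => lkR (lkA x) (lkB x) p q ∧ q ≠ lkA x v := by
      funext p q
      rw [lk_T_even hm hg]
      rfl
    rw [e]
    have h3 := lk_btw (lkA_inj x) (lkB_inj hm x) (lkAB x) (y := y) huv
    rw [← h3]
    exact ⟨fun h => h.2.2, fun h => ⟨h1, h2, h⟩⟩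
  · rw [if_neg hg]
    have e : (fun p q => (plane m).T (Sum.inl x) p q ∧ q ≠ Sum.inl (x * sg v)) =
        fun p q => lkR (fun i => lkA x (-i)) (fun i => lkB x (-i - 1)) p q ∧
          q ≠ (fun i => lkA x (-i)) (-v) := by
      funext p q
      rw [lk_T_odd hm hg, lk_swap]
      simp only [neg_neg]
      rfl
    rw [e]
    have h3 := lk_btw (a := fun i => lkA x (-i)) (b := fun i => lkB x (-i - 1))
      (fun i j h => neg_injective (lkA_inj x h))
      (fun i j h => neg_injective (sub_left_injective (lkB_inj hm x h)))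
      (fun i j => lkAB x _ _) (u := -u) (v := -v) (y := -y) (fun h => huv (neg_injective h))
    rw [lk_arc_neg hyu hyv] at h3
    rw [← h3]
    simp only [neg_neg]
    exact ⟨fun h => h.2.2, fun h => ⟨h1, h2, h⟩⟩

end URW
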