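import Pool.Agent.URW.Cox.ThNice
import Pool.Agent.URW.Cox.Far
import Pool.Agent.URW.Cox.Link
import Pool.Agent.URW.Cox.Exact

/-!
# URW Cox: INTERFACE theorems about the group and the plane (architect helper17)

Section 2 of `UWneg_proof.txt`. Everything is stated with base point `1`; other base points by left
translation. The theorems are in the imported files:

* `Cox/Nice.lean`: `len_nice`, `Ld_nice`, `nice_inj`, `walk_nbG`, `walk_nW`, `invol_nbG`, `uniq_nbG`, `geoW_nbG`.
* `Cox/Desc.lean`: `Ld_cases`, `th_single`, `th_pair`, `th_edge`, `Ld_down`, `Ld_far`, `sm_dbl`, `sm_add_le`.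
* `Cox/ThNice.lean`: `th_nice`.
* `Cox/Quot.lean`: `exists_quot`, `even_mul`.
* `Cox/Far.lean`: `far_loop`.
* `Cox/Sq.lean`: `sq_path`, `sq_corner`, `sq_corner'`, `sq_card`, `sq_inj`, `sq_trans`, `th_square`.
* `Cox/Tri.lean`: `T_inl`, `T_inr`, `T_cor`, `T_not_inl`, `adj_edge`, `adj_inl_inl`, `adj_centre`, `adj_inr`,
  `adj_inr'`, `trans_T`.
* `Cox/Link.lean`: `btw_plane`. `Cox/Lnk.lean`: `Lnk.swap_left`, `Lnk.swap_right`, `lnk_of_cd`.
* here: `plane_good`.
-/

set_option autoImplicit false

namespace URW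

variable {m : ℕ}

theorem plane_good (hm : 100 ≤ m) : (plane m).Good where
  rot := fun _ _ _ h => good_rot h
  ne := fun _ _ _ h => good_ne hm h
  uniq := fun _ _ _ _ h h' => good_uniq hm h h'
  opp := fun _ _ _ h => good_opp hm h
  nd := fun _ _ _ h => good_nd hm h
  link := fun x y y' h h' => by
    rcases x with g | s
    · exact link_inl hm g h h'
    · exact link_inr hm s h h'
  locfin := fun x => locfin_plane hm x
  exact := fun A _ a ha hT => exact_plane hm A a ha hT

end URW
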