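import Pool.Agent.URW.Cox.Defs
import Pool.Agent.URW.Hol.Ball

/-!
# URW Cox/Nice (package, 1 h): nice words in the Coxeter group and its quotients

PROOFS (`UWW/Word.lean`, `UWW/Grp.lean`). `c = cm m`: `c i j ↔ cd (i - j) = 1`.
* `red_nice`: `Red c (k :: l) = (Red c l ∧ rem c k l = none)` (definitional). If `l = a :: l'` then
`cd (k - a) ≥ 3`,
  so `a ≠ k` and `¬ c a k`: `rem_cons_none`. `len_nice`: `UWW.len_pr`.
* `Ld_nice`: `UWW.mem_Ld_iff` (with `red_nice`) and `rem c k (i :: l)`: it is `some l` for `k = i`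
  (`rem_cons_self`); `none` if `k ≠ i`, `¬ c i k` (`rem_cons_none`); if `c i k` it is `none` iff
`rem c k l = none`
  (`rem_cons_ne`), which holds since for `l = a :: l'`: `cd (i - a) ≥ 3`, `cd (i - k) = 1`, so
`cd (a - k) ≥ 2` (`cd_add_le`).
* `nice_inj`: induction on `l` (`generalizing l'`): compare lengths, then the first letters by
`Ld_nice`
  (`{i} = {i'}`), then cancel.
* `walk_nbG`: induction on `l` (`UWW.pr_cons`, `map_mul`, `mul_assoc`); `walk_nW` similarly.
* `uniq_nbG`: `walk v l = walk v l'` gives `ρ (pr l) = ρ (pr l')`, so `ρ (pr (l ++ l'.reverse)) = 1`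
  (`UWW.pr_append`, `UWW.pr_reverse`), length `≤ 2 n`; so `pr l = pr l'`, `nice_inj`.
* `geoW_nbG`: if `l'.length < l.length ≤ n` then again `pr l = pr l'` and
`l.length = len (pr l) = len (pr l') ≤ l'.length`
  (`UWW.len_pr_le`).
-/

set_option autoImplicit false
set_option linter.unusedVariables false

namespace URW

variable {m : ℕ}

theorem nice_cons {i j : Lab m} {l : List (Lab m)} :
    NiceW (i :: j :: l) ↔ 3 ≤ cd (i - j) ∧ NiceW (j :: l) := by
  exact List.isChain_cons_cons

theorem nice_tail {i : Lab m} {l : List (Lab m)} (h : NiceW (i :: l)) : NiceW l := by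
  cases l with
  | nil => exact List.IsChain.nil
  | cons j l => exact (nice_cons.1 h).2

private theorem rem_far {k a : Lab m} (h : 2 ≤ cd (k - a)) (l : List (Lab m)) :
    UWW.rem (cm m) k (a :: l) = none := by
  refine UWW.rem_cons_none ?_ ?_ l
  · rintro rfl
    rw [sub_self, cd_zero] at h
    omega
  · intro h1
    have h2 : cd (a - k) = 1 := h1
    rw [cd_sub_comm] at h2
    omega

theorem red_nice {l : List (Lab m)} (h : NiceW l) : UWW.Red (cm m) l := by
  induction l with
  | nil => trivial
  | cons k l ih =>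
    refine ⟨ih (nice_tail h), ?_⟩
    cases l with
    | nil => rfl
    | cons a l =>
      have h1 := (nice_cons.1 h).1
      exact rem_far (by omega) l

theorem len_nice (hm : 100 ≤ m) {l : List (Lab m)} (h : NiceW l) :
    UWW.len (UWW.pr (cm m) l) = l.length := by
  exact UWW.len_pr (red_nice h)

theorem Ld_nice (hm : 100 ≤ m) {i : Lab m} {l : List (Lab m)} (h : NiceW (i :: l)) :
    UWW.Ld (UWW.pr (cm m) (i :: l)) = {i} := by
  ext k
  rw [UWW.mem_Ld_iff (red_nice h), Set.mem_singleton_iff]
  by_cases hik : i = k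
  · subst hik
    rw [UWW.rem_cons_self]
    simp
  · have h0 : UWW.rem (cm m) k (i :: l) = none := by
      by_cases hc : cm m i k
      · rw [UWW.rem_cons_ne hik hc, Option.map_eq_none_iff]
        cases l with
        | nil => rfl
        | cons a l =>
          have h1 := (nice_cons.1 h).1
          have h2 : cd (i - k) = 1 := hc
          have h3 := cd_add_le (i - k) (k - a)
          rw [sub_add_sub_cancel] at h3
          exact rem_far (by omega) l
      · exact UWW.rem_cons_none hik hc l
    rw [h0]
    constructor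
    · intro h1
      exact absurd rfl h1
    · rintro rfl
      exact absurd rfl hik

theorem nice_inj (hm : 100 ≤ m) {l l' : List (Lab m)} (h : NiceW l) (h' : NiceW l')
    (he : UWW.pr (cm m) l = UWW.pr (cm m) l') : l = l' := by
  induction l generalizing l' with
  | nil =>
    have h1 := len_nice hm h'
    rw [← he, len_nice hm h, List.length_nil] at h1
    exact (List.length_eq_zero_iff.1 h1.symm).symm
  | cons i l ih =>
    cases l' with
    | nil =>
      have h1 := len_nice hm h
      rw [he, len_nice hm h'] at h1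
      simp at h1
    | cons j l' =>
      have h1 := Ld_nice hm h
      rw [he, Ld_nice hm h', Set.singleton_eq_singleton_iff] at h1
      subst h1
      rw [UWW.pr_cons, UWW.pr_cons] at he
      rw [ih (nice_tail h) (nice_tail h') (mul_left_cancel he)]

theorem walk_nbG {G : Type} [Group G] (ρ : Wm m →* G) (v : G) (l : List (Lab m)) :
    walk (nbG ρ) v l = v * ρ (UWW.pr (cm m) l) := by
  induction l generalizing v with
  | nil => simp [walk]
  | cons i l ih =>
    change walk (nbG ρ) (v * ρ (sg i)) l = _
    rw [ih, UWW.pr_cons, map_mul, mul_assoc]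

theorem walk_nW (v : Wm m) (l : List (Lab m)) : walk nW v l = v * UWW.pr (cm m) l := by
  induction l generalizing v with
  | nil => simp [walk]
  | cons i l ih =>
    change walk nW (v * sg i) l = _
    rw [ih, UWW.pr_cons, mul_assoc]

theorem invol_nbG {G : Type} [Group G] (ρ : Wm m →* G) : Invol (nbG ρ) := by
  intro v i
  change v * ρ (sg i) * ρ (sg i) = v
  rw [mul_assoc, ← map_mul, UWW.s_sq, map_one, mul_one]

private theorem pr_eq {G : Type} [Group G] {ρ : Wm m →* G} {n : ℕ} (h : InjN ρ (2 * n)) {v : G}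
    {l l' : List (Lab m)} (h1 : l.length ≤ n) (h2 : l'.length ≤ n)
    (he : walk (nbG ρ) v l = walk (nbG ρ) v l') : UWW.pr (cm m) l = UWW.pr (cm m) l' := by
  rw [walk_nbG, walk_nbG] at he
  have h3 := mul_left_cancel he
  have h4 := h (l ++ l'.reverse) (by rw [List.length_append, List.length_reverse]; omega)
    (by rw [UWW.pr_append, UWW.pr_reverse, map_mul, map_inv, h3, mul_inv_cancel])
  rwa [UWW.pr_append, UWW.pr_reverse, mul_inv_eq_one] at h4

theorem uniq_nbG (hm : 100 ≤ m) {G : Type} [Group G] (ρ : Wm m →* G) {n : ℕ}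
    (h : InjN ρ (2 * n)) : Uniq (nbG ρ) n := by
  intro v l l' h1 h2 h3 h4 h5
  exact nice_inj hm h1 h2 (pr_eq h h3 h4 h5)

theorem geoW_nbG (hm : 100 ≤ m) {G : Type} [Group G] (ρ : Wm m →* G) {n : ℕ}
    (h : InjN ρ (2 * n)) : GeoW (nbG ρ) n := by
  intro v l l' h1 h2 h3
  by_contra h4
  have h5 := len_nice hm h1
  rw [pr_eq h h2 (by omega) h3] at h5
  have h6 := UWW.len_pr_le (c := cm m) l'
  omega

end URW
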