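import Pool.Agent.URW.Cox.Defs

/-!
# URW Cox/Quot (package, 2.5 h): finite quotients, injective on balls, with even kernel

PROOFS. Everything in this file is for `W c`, `c = cm m` (only `Com c` is used).
* `parHom : Wm m →* Multiplicative (ZMod 2)`, every generator goes to `ofAdd 1` (`UWW.lift`). By `UWW.W.ind` and
  `len_s_mul`: `parHom w = ofAdd (len w : ZMod 2)`; so `parHom w = 1 ↔ Even (len w)`.
* PREFIXES. `Pre w v : len v + len (v⁻¹ w) = len w` (`v` is a prefix of `w`). `Pre w 1`, `Pre w w`. If `Pre w v` and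
  `i ∉ Rd v` then `Pre w (v s_i) ↔ i ∈ Ld (v⁻¹ w)` (`(v s_i)⁻¹ w = s_i (v⁻¹ w)`, `len_mul_s`, `len_s_mul`). If `Pre w v` and
  `i ∈ Rd v` then `Pre w (v s_i)` (`len (v⁻¹ w) + 1 ≥ len (s_i v⁻¹ w) ≥ len w - len (v s_i)` by `len_mul_le`).
* `pre_square`: let `c i j`. If three of `v, v s_i, v s_j, v s_i s_j` are prefixes of `w` so is the fourth. It is enough
  to show: for `u` with `i, j ∉ Rd u` (the lowest corner; every square has one: remove `i`, `j` from the right as
  long as they are descents, use `Rd_mul_s` (F2)): `u s_i s_j` prefix ⟹ `u s_i`, `u s_j`, `u` prefixes; `u s_i` or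
  `u s_j` prefix ⟹ `u` prefix (second half of PREFIXES), and `u s_i`, `u s_j` prefixes ⟹ `u s_i s_j` prefix: put
  `x = u⁻¹ w`, `i, j ∈ Ld x`; `x = s_i x'` with `i ∉ Ld x'`, and `Ld_s_mul` gives `j ∈ Ld x'`, so `u s_i s_j` is a prefix by
  the first half (`j ∉ Rd (u s_i)` by `Rd_mul_s`).
* THE ACTION on `C w = {v // Pre w v}` (finite: `len v ≤ len w`, and there are finitely many words of bounded length,
  `List.finite_length_le`): `σ_i v = v s_i` if that is in `C w`, else `v`. `σ_i σ_i = 1`, and `σ_i σ_j = σ_j σ_i` for `c i j`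
  (cases: which of the four corners of the square of `v` are in `C w`; by `pre_square` never exactly three).
* So `UWW.lift` gives `Wm m →* Equiv.Perm (C w)`, `s_i ↦ σ_i`. For a prefix `v` of `w`: the image of `v⁻¹` sends `1` to
  `v` (induction on `len v`: `v = v' s_i`, `i ∉ Rd v'`, `v'` a prefix; the image of `(v' s_i)⁻¹ = s_i v'⁻¹` is `σ_i` after the
  image of `v'⁻¹`). Hence the image of `w⁻¹` sends `1` to `w`, so the image of `w` is not `1` if `w ≠ 1`.
* `exists_quot`: the product over all words `l` of length `≤ n` (finite index type) of the actions for `w = pr l`,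
  times `parHom`; `V` = the range of this hom (a subgroup of a finite group), `ρ` = `MonoidHom.rangeRestrict`.
-/

set_option autoImplicit false

namespace URW

variable {m : ℕ}

/-- `v` is a prefix of `w`. -/
def Pre (w v : Wm m) : Prop := UWW.len v + UWW.len (v⁻¹ * w) = UWW.len w

private theorem lms (v : Wm m) (i : Lab m) :
    (i ∉ UWW.Rd v ∧ UWW.len (v * sg i) = UWW.len v + 1) ∨
      (i ∈ UWW.Rd v ∧ UWW.len (v * sg i) + 1 = UWW.len v) := UWW.len_mul_s v i

private theorem lsm (i : Lab m) (w : Wm m) :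
    (i ∉ UWW.Ld w ∧ UWW.len (sg i * w) = UWW.len w + 1) ∨
      (i ∈ UWW.Ld w ∧ UWW.len (sg i * w) + 1 = UWW.len w) := UWW.len_s_mul i w

theorem pre_one (w : Wm m) : Pre w 1 := by
  unfold Pre
  rw [UWW.len_one, inv_one, one_mul, zero_add]

theorem pre_self (w : Wm m) : Pre w w := by
  unfold Pre
  rw [inv_mul_cancel, UWW.len_one, add_zero]

private theorem inv_mul_s (w v : Wm m) (i : Lab m) : (v * sg i)⁻¹ * w = sg i * (v⁻¹ * w) := by
  rw [mul_inv_rev, UWW.s_inv, mul_assoc]

theorem pre_up {w v : Wm m} (h : Pre w v) {i : Lab m} (hi : i ∉ UWW.Rd v) :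
    Pre w (v * sg i) ↔ i ∈ UWW.Ld (v⁻¹ * w) := by
  unfold Pre at h ⊢
  rw [inv_mul_s]
  rcases lms v i with ⟨_, h1⟩ | ⟨h1, _⟩
  · rcases lsm i (v⁻¹ * w) with ⟨h2, h3⟩ | ⟨h2, h3⟩
    · constructor
      · intro h4
        exfalso
        have : UWW.len (sg i * (v⁻¹ * w)) = UWW.len (v⁻¹ * w) + 1 := h3
        omega
      · intro h4
        exact absurd h4 h2
    · constructor
      · intro _
        exact h2
      · intro _
        have : UWW.len (sg i * (v⁻¹ * w)) + 1 = UWW.len (v⁻¹ * w) := h3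
        omega
  · exact absurd h1 hi

theorem pre_down {w v : Wm m} (h : Pre w v) {i : Lab m} (hi : i ∈ UWW.Rd v) :
    Pre w (v * sg i) := by
  unfold Pre at h ⊢
  have h5 := UWW.len_mul_le (v * sg i) ((v * sg i)⁻¹ * w)
  rw [mul_inv_cancel_left] at h5
  rw [inv_mul_s] at h5 ⊢
  rcases lms v i with ⟨h1, _⟩ | ⟨_, h1⟩
  · exact absurd hi h1
  · rcases lsm i (v⁻¹ * w) with ⟨_, h3⟩ | ⟨_, h3⟩
    · have : UWW.len (sg i * (v⁻¹ * w)) = UWW.len (v⁻¹ * w) + 1 := h3
      omega
    · have : UWW.len (sg i * (v⁻¹ * w)) + 1 = UWW.len (v⁻¹ * w) := h3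
      omega

private theorem ne_of_cm {i j : Lab m} (h : cm m i j) : i ≠ j := by
  rintro rfl
  exact UWW.Com.irrefl _ h

private theorem cm_symm {i j : Lab m} (h : cm m i j) : cm m j i := UWW.Com.symm _ _ h

theorem pre_square {w v : Wm m} {i j : Lab m} (hij : cm m i j) (h1 : Pre w v)
    (h2 : Pre w (v * sg i)) (h3 : Pre w (v * sg j)) : Pre w (v * sg i * sg j) := by
  have hne := ne_of_cm hij
  by_cases hj : j ∈ UWW.Rd v
  · -- `j` is a descent of `v s_i`
    have h4 : j ∈ UWW.Rd (v * sg i) := by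
      by_cases hi : i ∈ UWW.Rd v
      · have h5 : i ∉ UWW.Rd (v * sg i) := by
          rcases lms v i with ⟨h6, _⟩ | ⟨_, h6⟩
          · exact absurd hi h6
          · intro h7
            have h8 : UWW.len (v * sg i * sg i) < UWW.len (v * sg i) := h7
            rw [UWW.mul_s_mul_s] at h8
            omega
        have h6 := (UWW.Rd_mul_s h5 j)
        rw [UWW.mul_s_mul_s] at h6
        rcases h6.1 hj with h7 | h7
        · exact absurd h7.symm hne
        · exact h7.1
      · exact (UWW.Rd_mul_s hi j).2 (Or.inr ⟨hj, cm_symm hij⟩)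
    exact pre_down h2 h4
  · by_cases hi : i ∈ UWW.Rd v
    · have h4 : i ∈ UWW.Rd (v * sg j) := (UWW.Rd_mul_s hj i).2 (Or.inr ⟨hi, hij⟩)
      have h5 := pre_down h3 h4
      rwa [mul_assoc, ← UWW.s_comm hij, ← mul_assoc] at h5
    · have h4 : j ∉ UWW.Rd (v * sg i) := by
        rw [UWW.Rd_mul_s hi j]
        rintro (h5 | h5)
        · exact hne h5.symm
        · exact hj h5.1
      rw [pre_up h2 h4, inv_mul_s]
      have h5 := (pre_up h1 hi).1 h2
      have h6 := (pre_up h1 hj).1 h3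
      have h7 : i ∉ UWW.Ld (sg i * (v⁻¹ * w)) := by
        rcases lsm i (v⁻¹ * w) with ⟨h8, _⟩ | ⟨_, h8⟩
        · exact absurd h5 h8
        · intro h9
          have h10 : UWW.len (sg i * (sg i * (v⁻¹ * w))) < UWW.len (sg i * (v⁻¹ * w)) := h9
          rw [UWW.s_mul_s_mul] at h10
          omega
      have h8 := UWW.Ld_s_mul h7 j
      rw [UWW.s_mul_s_mul] at h8
      rcases h8.1 h6 with h9 | h9
      · exact absurd h9.symm hne
      · exact h9.1

theorem pre_finite (w : Wm m) : {v : Wm m | Pre w v}.Finite := by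
  have h := (List.finite_length_le (Lab m) (UWW.len w)).image (UWW.pr (cm m))
  refine h.subset ?_
  intro v hv
  obtain ⟨l, hl, rfl⟩ := UWW.exists_red v
  refine ⟨l, ?_, rfl⟩
  have h1 : UWW.len (UWW.pr (cm m) l) + UWW.len ((UWW.pr (cm m) l)⁻¹ * w) = UWW.len w := hv
  rw [UWW.len_pr hl] at h1
  change l.length ≤ UWW.len w
  omega

open Classical in
/-- the action of a generator on the prefixes -/
private noncomputable def st (w : Wm m) (i : Lab m) (v : {v : Wm m // Pre w v}) :
    {v : Wm m // Pre w v} :=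
  if h : Pre w (v.1 * sg i) then ⟨v.1 * sg i, h⟩ else v

private theorem st_pos {w : Wm m} {i : Lab m} {v : {v : Wm m // Pre w v}}
    (h : Pre w (v.1 * sg i)) : st w i v = ⟨v.1 * sg i, h⟩ := dif_pos h

private theorem st_neg {w : Wm m} {i : Lab m} {v : {v : Wm m // Pre w v}}
    (h : ¬ Pre w (v.1 * sg i)) : st w i v = v := dif_neg h

private theorem st_st (w : Wm m) (i : Lab m) (v : {v : Wm m // Pre w v}) :
    st w i (st w i v) = v := by
  by_cases h : Pre w (v.1 * sg i)
  · have h1 : Pre w ((⟨v.1 * sg i, h⟩ : {v : Wm m // Pre w v}).1 * sg i) := by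
      change Pre w (v.1 * sg i * sg i)
      rw [UWW.mul_s_mul_s]
      exact v.2
    rw [st_pos h, st_pos h1]
    exact Subtype.ext (UWW.mul_s_mul_s i v.1)
  · rw [st_neg h, st_neg h]

private theorem st_aux {w : Wm m} {i j : Lab m} (hij : cm m i j) (v : {v : Wm m // Pre w v})
    (hi : Pre w (v.1 * sg i)) (hj : ¬ Pre w (v.1 * sg j)) :
    ¬ Pre w (v.1 * sg i * sg j) := by
  intro h
  apply hj
  have h1 : Pre w (v.1 * sg i * sg i) := by
    rw [UWW.mul_s_mul_s]
    exact v.2
  have h2 := pre_square hij hi h1 h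
  rwa [UWW.mul_s_mul_s] at h2

private theorem st_comm {w : Wm m} {i j : Lab m} (hij : cm m i j) (v : {v : Wm m // Pre w v}) :
    st w i (st w j v) = st w j (st w i v) := by
  have hji := cm_symm hij
  by_cases hi : Pre w (v.1 * sg i) <;> by_cases hj : Pre w (v.1 * sg j)
  · have h1 := pre_square hij v.2 hi hj
    have h2 := pre_square hji v.2 hj hi
    rw [st_pos hi, st_pos hj, st_pos (v := ⟨v.1 * sg i, hi⟩) h1,
      st_pos (v := ⟨v.1 * sg j, hj⟩) h2]
    refine Subtype.ext ?_
    change v.1 * sg j * sg i = v.1 * sg i * sg j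
    rw [mul_assoc, mul_assoc, UWW.s_comm hij]
  · have h1 := st_aux hij v hi hj
    rw [st_neg hj, st_pos hi, st_neg (v := ⟨v.1 * sg i, hi⟩) h1]
  · have h1 := st_aux hji v hj hi
    rw [st_neg hi, st_pos hj, st_neg (v := ⟨v.1 * sg j, hj⟩) h1]
  · rw [st_neg hi, st_neg hj, st_neg hi]

/-- the action as a permutation -/
private noncomputable def pe (w : Wm m) (i : Lab m) : Equiv.Perm {v : Wm m // Pre w v} :=
  ⟨st w i, st w i, st_st w i, st_st w i⟩

/-- the action of the group -/
private noncomputable def ta (w : Wm m) : Wm m →* Equiv.Perm {v : Wm m // Pre w v} :=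
  UWW.lift (pe w) (fun i => Equiv.ext fun v => st_st w i v)
    fun _ _ h => Equiv.ext fun v => st_comm h v

private theorem ta_s (w : Wm m) (i : Lab m) : ta w (sg i) = pe w i := by
  unfold ta
  exact UWW.lift_s _ _ _ i

private theorem exists_Rd {v : Wm m} (hv : v ≠ 1) : ∃ i, i ∈ UWW.Rd v := by
  obtain ⟨l, hl, hlv⟩ := UWW.exists_red v⁻¹
  cases l with
  | nil =>
    exfalso
    apply hv
    rw [UWW.pr_nil] at hlv
    exact inv_eq_one.1 hlv.symm
  | cons a l =>
    refine ⟨a, ?_⟩
    rw [UWW.Rd_eq, ← hlv, UWW.mem_Ld_iff hl, UWW.rem_cons_self]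
    simp

private theorem ta_orbit (w : Wm m) (k : ℕ) : ∀ (v : Wm m) (h : Pre w v), UWW.len v = k →
    ta w v⁻¹ ⟨1, pre_one w⟩ = ⟨v, h⟩ := by
  induction k with
  | zero =>
    intro v h hk
    have h1 : v = 1 := UWW.len_eq_zero.1 hk
    subst h1
    rw [inv_one, map_one]
    rfl
  | succ k ih =>
    intro v h hk
    have hv : v ≠ 1 := by
      intro h0
      rw [UWW.len_eq_zero.2 h0] at hk
      omega
    obtain ⟨i, hi⟩ := exists_Rd hv
    have h1 := pre_down h hi
    have h2 : UWW.len (v * sg i) = k := by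
      rcases lms v i with ⟨h6, _⟩ | ⟨_, h6⟩
      · exact absurd hi h6
      · omega
    have h3 := ih (v * sg i) h1 h2
    have h4 : v⁻¹ = sg i * (v * sg i)⁻¹ := by
      rw [mul_inv_rev, UWW.s_inv, UWW.s_mul_s_mul]
    rw [h4, map_mul, Equiv.Perm.mul_apply, h3, ta_s]
    change st w i ⟨v * sg i, h1⟩ = ⟨v, h⟩
    have h5 : Pre w ((⟨v * sg i, h1⟩ : {v : Wm m // Pre w v}).1 * sg i) := by
      change Pre w (v * sg i * sg i)
      rw [UWW.mul_s_mul_s]
      exact h
    rw [st_pos h5]
    exact Subtype.ext (UWW.mul_s_mul_s i v)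

/-- One element of the group is detected by a finite quotient. -/
theorem exists_perm (w : Wm m) : ∃ (X : Type) (_ : Finite X) (τ : Wm m →* Equiv.Perm X),
    w ≠ 1 → τ w ≠ 1 := by
  refine ⟨{v : Wm m // Pre w v}, (pre_finite w).to_subtype, ta w, fun hw h => hw ?_⟩
  have h1 := ta_orbit w (UWW.len w) w (pre_self w) rfl
  rw [map_inv, h, inv_one] at h1
  have h2 := congrArg Subtype.val h1
  exact h2.symm

private theorem exists_par : ∃ π : Wm m →* Multiplicative (ZMod 2),
    ∀ w, π w = Multiplicative.ofAdd ((UWW.len w : ℕ) : ZMod 2) := by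
  have hz : ∀ a : Multiplicative (ZMod 2), a * a = 1 := by decide
  refine ⟨UWW.lift (fun _ => Multiplicative.ofAdd 1) (fun _ => hz _)
    (fun _ _ _ => rfl), fun w => ?_⟩
  induction w using UWW.W.ind with
  | h1 =>
    rw [map_one, UWW.len_one, Nat.cast_zero]
    rfl
  | h2 i w ih =>
    rw [map_mul, ih, UWW.lift_s, ← ofAdd_add]
    rcases UWW.len_s_mul i w with ⟨_, h⟩ | ⟨_, h⟩
    · rw [h, Nat.cast_add, Nat.cast_one, add_comm]
    · rw [← h, Nat.cast_add, Nat.cast_one, add_comm, add_assoc]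
      have h2 : (1 : ZMod 2) + 1 = 0 := by decide
      rw [h2, add_zero]

theorem exists_parity : ∃ π : Wm m →* Multiplicative (ZMod 2), ∀ w, π w = 1 ↔ Even (UWW.len w) := by
  obtain ⟨π, hπ⟩ := exists_par (m := m)
  refine ⟨π, fun w => ?_⟩
  rw [hπ w, ofAdd_eq_one]
  exact ZMod.natCast_eq_zero_iff_even

/-- The parity of the length. -/
theorem even_mul (g w : Wm m) :
    Even (UWW.len (g * w)) ↔ (Even (UWW.len g) ↔ Even (UWW.len w)) := by
  obtain ⟨π, hπ⟩ := exists_parity (m := m)
  rw [← hπ, ← hπ, ← hπ, map_mul]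
  have h : ∀ a b : Multiplicative (ZMod 2), a * b = 1 ↔ (a = 1 ↔ b = 1) := by decide
  exact h _ _

/-- Finite quotients which are injective on large balls, with even kernel. -/
theorem exists_quot (hm : 100 ≤ m) (n : ℕ) :
    ∃ (V : Type) (_ : Group V) (_ : Finite V) (ρ : Wm m →* V), Function.Surjective ρ ∧
      InjN ρ n ∧ ∀ w, ρ w = 1 → Even (UWW.len w) := by
  obtain ⟨π, hπ⟩ := exists_parity (m := m)
  have hfin : Finite {l : List (Lab m) // l.length ≤ n} :=
    (List.finite_length_le (Lab m) n).to_subtype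
  choose X hX τ hτ using fun l : {l : List (Lab m) // l.length ≤ n} =>
    exists_perm (UWW.pr (cm m) l.1)
  let Φ : Wm m →* ((l : {l : List (Lab m) // l.length ≤ n}) → Equiv.Perm (X l)) ×
      Multiplicative (ZMod 2) := (MonoidHom.pi τ).prod π
  have hfin2 : Finite (((l : {l : List (Lab m) // l.length ≤ n}) → Equiv.Perm (X l)) ×
      Multiplicative (ZMod 2)) := by
    have : ∀ l, Finite (Equiv.Perm (X l)) := fun l => inferInstance
    have h2 : Finite ((l : {l : List (Lab m) // l.length ≤ n}) → Equiv.Perm (X l)) := Pi.finite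
    have h3 : Finite (Multiplicative (ZMod 2)) := inferInstance
    exact inferInstance
  refine ⟨Φ.range, inferInstance, inferInstance, Φ.rangeRestrict, Φ.rangeRestrict_surjective,
    ?_, ?_⟩
  · intro l hl h
    by_contra hne
    have h1 : Φ (UWW.pr (cm m) l) = 1 := congrArg Subtype.val h
    have h2 := congrFun (congrArg Prod.fst h1) ⟨l, hl⟩
    exact hτ ⟨l, hl⟩ hne h2
  · intro w h
    have h1 : Φ w = 1 := congrArg Subtype.val h
    exact (hπ w).1 (congrArg Prod.snd h1)

end URW
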