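import Pool.Agent.URW.Cox.Desc
import Pool.Agent.URW.Cox.Nice

/-!
# URW Cox/Sq (package, 1.5 h): squares

PROOFS. `sg_comm`: if `1 ≤ m` then `cd (i - (i + 1)) = 1`, `UWW.s_comm`; if `m = 0` then `Lab 0` is a subsingleton and
`i + 1 = i`. Then `sqv nW w i = {w, w s_i, w s_{i+1}, w s_i s_{i+1}}`.
* `sq_corner'`: `sqv nW x i = sqv nW w i` for each corner `x` (`s_i s_i = 1`, `sg_comm`). `sq_corner`, `sq_path` follow
  (between two corners: `[]`, `[i]`, `[i + 1]` or `[i, i + 1]`).
* `sq_card`: with `u` the left translate: `1, s_i, s_{i+1}, s_i s_{i+1}` have the lengths `0, 1, 1, 2`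
  (`UWW.len_pr` for the reduced words `[], [i], [i+1], [i, i+1]`), and `s_i ≠ s_{i+1}` (`Ld (s_i) = {i}`, `Ld_nice`).
* `sg_inj`: `Ld (s_i) = {i}`.
* `sq_inj`: multiply by `w⁻¹`: `{1, s_i, s_{i+1}, s_i s_{i+1}} = {1, s_j, s_{j+1}, s_j s_{j+1}}`; the elements of length `1`:
  `{s_i, s_{i+1}} = {s_j, s_{j+1}}`, so `{i, i+1} = {j, j+1}`, so `i = j` (`2 ≠ 0`, `cd_two`).
* `th_square`: if `1` is not a corner: join `x` and `y` by `sq_path`, `th_edge` twice, `sm_add_le`. If `1` is a corner:
  by `sq_corner'` the square is `{1, s_i, s_{i+1}, s_i s_{i+1}}`, with descent sets `{i}`, `{i+1}`, `{i, i+1}` and angles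
  `dbl i`, `dbl i + 2`, `dbl i + 1`.
-/

set_option autoImplicit false

namespace URW

variable {m : ℕ}

private theorem cd_succ (hm : 1 ≤ m) (i : Lab m) : cd (i - (i + 1)) = 1 := by
  have h1 : i - (i + 1) = (((-1 : ℤ) : ℤ) : Lab m) := by
    push_cast
    ring
  rw [h1, cd_intCast _ (by simp; omega)]
  rfl

private theorem one_ne (hm : 1 ≤ m) : (1 : Lab m) ≠ 0 := by
  intro h
  have h1 := cd_succ hm 0
  rw [h, add_zero, sub_zero, cd_zero] at h1
  exact absurd h1 (by norm_num)

private theorem succ_ne (hm : 1 ≤ m) (i : Lab m) : i + 1 ≠ i := fun h =>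
  one_ne hm (add_eq_left.1 h)

theorem sg_comm (i : Lab m) : (sg i : Wm m) * sg (i + 1) = sg (i + 1) * sg i := by
  rcases Nat.eq_zero_or_pos m with h | h
  · subst h
    have h1 : i + 1 = i := Subsingleton.elim (α := ZMod 1) _ _
    rw [h1]
  · exact UWW.s_comm (c := cm m) (cd_succ h i)

theorem sqv_eq (w : Wm m) (i : Lab m) :
    sqv nW w i = {w, w * sg i, w * sg (i + 1), w * sg i * sg (i + 1)} := rfl

theorem sq_corner' {w x : Wm m} {i : Lab m} (hx : x ∈ sqv nW w i) : sqv nW w i = sqv nW x i := by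
  have e1 : ∀ v : Wm m, v * sg i * sg i = v := fun v => UWW.mul_s_mul_s i v
  have e2 : ∀ v : Wm m, v * sg (i + 1) * sg (i + 1) = v := fun v => UWW.mul_s_mul_s (i + 1) v
  have e3 : ∀ v : Wm m, v * sg (i + 1) * sg i = v * sg i * sg (i + 1) := fun v => by
    rw [mul_assoc, ← sg_comm, mul_assoc]
  rw [sqv_eq] at hx
  simp only [Set.mem_insert_iff, Set.mem_singleton_iff] at hx
  rw [sqv_eq, sqv_eq]
  rcases hx with rfl | rfl | rfl | rfl
  · rfl
  · rw [e1]
    ext y
    simp only [Set.mem_insert_iff, Set.mem_singleton_iff]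
    tauto
  · rw [e3, e2, e2]
    ext y
    simp only [Set.mem_insert_iff, Set.mem_singleton_iff]
    tauto
  · rw [e3 (w * sg i), e1, e2, e2]
    ext y
    simp only [Set.mem_insert_iff, Set.mem_singleton_iff]
    tauto

/-- A square seen from another corner. -/
theorem sq_corner {w x : Wm m} {i : Lab m} (hx : x ∈ sqv nW w i) :
    ∃ j, sqv nW w i = sqv nW x j := ⟨i, sq_corner' hx⟩

/-- Two corners of a square are joined by at most two of its edges. -/
theorem sq_path {w x y : Wm m} {i : Lab m} (hx : x ∈ sqv nW w i) (hy : y ∈ sqv nW w i) :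
    ∃ l : List (Lab m), l.length ≤ 2 ∧ walk nW x l = y ∧ ∀ p, p <+: l → walk nW x p ∈ sqv nW w i := by
  rw [sq_corner' hx] at hy ⊢
  have m0 : x ∈ sqv nW x i := by rw [sqv_eq]; simp
  have m1 : x * sg i ∈ sqv nW x i := by rw [sqv_eq]; simp
  have m2 : x * sg (i + 1) ∈ sqv nW x i := by rw [sqv_eq]; simp
  have m3 : x * sg i * sg (i + 1) ∈ sqv nW x i := by rw [sqv_eq]; simp
  have hy' := hy
  rw [sqv_eq] at hy'
  simp only [Set.mem_insert_iff, Set.mem_singleton_iff] at hy'
  rcases hy' with rfl | rfl | rfl | rfl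
  · refine ⟨[], by simp, rfl, fun p hp => ?_⟩
    rw [List.prefix_nil.1 hp]
    exact m0
  · refine ⟨[i], by simp, rfl, fun p hp => ?_⟩
    rcases List.prefix_cons_iff.1 hp with rfl | ⟨t, rfl, ht⟩
    · exact m0
    · rw [List.prefix_nil.1 ht]
      exact m1
  · refine ⟨[i + 1], by simp, rfl, fun p hp => ?_⟩
    rcases List.prefix_cons_iff.1 hp with rfl | ⟨t, rfl, ht⟩
    · exact m0
    · rw [List.prefix_nil.1 ht]
      exact m2
  · refine ⟨[i, i + 1], by simp, rfl, fun p hp => ?_⟩
    rcases List.prefix_cons_iff.1 hp with rfl | ⟨t, rfl, ht⟩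
    · exact m0
    · rcases List.prefix_cons_iff.1 ht with rfl | ⟨t', rfl, ht'⟩
      · exact m1
      · rw [List.prefix_nil.1 ht']
        exact m3

private theorem red_one (i : Lab m) : UWW.Red (cm m) [i] := ⟨trivial, rfl⟩

private theorem pr_one' (i : Lab m) : UWW.pr (cm m) [i] = sg i := by
  rw [UWW.pr_cons, UWW.pr_nil, mul_one]

private theorem rem_one' (k i : Lab m) : UWW.rem (cm m) k [i] ≠ none ↔ k = i := by
  constructor
  · intro h
    exact List.mem_singleton.1 (UWW.rem_mem h)
  · rintro rfl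
    rw [UWW.rem_cons_self]
    simp

private theorem Ld_sg (i : Lab m) : UWW.Ld (sg i : Wm m) = {i} := by
  ext k
  rw [← pr_one', UWW.mem_Ld_iff (red_one i), rem_one', Set.mem_singleton_iff]

private theorem red_two (hm : 1 ≤ m) (i : Lab m) : UWW.Red (cm m) [i, i + 1] := by
  refine ⟨red_one _, ?_⟩
  by_contra h
  exact succ_ne hm i ((rem_one' i (i + 1)).1 h).symm

private theorem pr_two' (i : Lab m) : UWW.pr (cm m) [i, i + 1] = sg i * sg (i + 1) := by
  rw [UWW.pr_cons, pr_one']

private theorem Ld_sgsg (hm : 1 ≤ m) (i : Lab m) :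
    UWW.Ld (sg i * sg (i + 1) : Wm m) = {i, i + 1} := by
  ext k
  rw [← pr_two', UWW.mem_Ld_iff (red_two hm i)]
  simp only [Set.mem_insert_iff, Set.mem_singleton_iff]
  constructor
  · intro h
    have h1 := UWW.rem_mem h
    simpa using h1
  · rintro (rfl | rfl)
    · rw [UWW.rem_cons_self]
      simp
    · rw [UWW.rem_cons_ne (succ_ne hm i).symm (cd_succ hm i), UWW.rem_cons_self]
      simp

theorem sg_inj {i j : Lab m} (h : (sg i : Wm m) = sg j) : i = j := by
  have h1 := Ld_sg i
  rw [h, Ld_sg] at h1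
  exact (Set.singleton_injective h1).symm

theorem len_sg (i : Lab m) : UWW.len (sg i : Wm m) = 1 := by
  rw [← pr_one', UWW.len_pr (red_one i)]
  rfl

theorem sg_ne_one (i : Lab m) : (sg i : Wm m) ≠ 1 := by
  intro h
  have h1 := len_sg i
  rw [h, UWW.len_one] at h1
  exact absurd h1 (by norm_num)

theorem len_sgsg (hm : 100 ≤ m) (i : Lab m) : UWW.len (sg i * sg (i + 1) : Wm m) = 2 := by
  rw [← pr_two', UWW.len_pr (red_two (by omega) i)]
  rfl

/-- Left translation of a square. -/
theorem sq_trans (g w : Wm m) (i : Lab m) :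
    (fun x => g * x) '' sqv nW w i = sqv nW (g * w) i := by
  rw [sqv_eq, sqv_eq]
  simp only [Set.image_insert_eq, Set.image_singleton, mul_assoc]

private theorem sqv_one (i : Lab m) :
    sqv nW (1 : Wm m) i = {1, sg i, sg (i + 1), sg i * sg (i + 1)} := by
  rw [sqv_eq, one_mul, one_mul]

/-- A square has four corners. -/
theorem sq_card (hm : 100 ≤ m) (w : Wm m) (i : Lab m) : (sqv nW w i).ncard = 4 := by
  have h0 : sqv nW w i = (fun x => w * x) '' sqv nW 1 i := by rw [sq_trans, mul_one]
  rw [h0, Set.ncard_image_of_injective _ (mul_right_injective w), sqv_one]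
  have l1 := len_sg i
  have l2 := len_sg (i + 1)
  have l3 := len_sgsg hm i
  have l0 : UWW.len (1 : Wm m) = 0 := UWW.len_one
  have n1 : (1 : Wm m) ≠ sg i := (sg_ne_one i).symm
  have n2 : (1 : Wm m) ≠ sg (i + 1) := (sg_ne_one _).symm
  have n3 : (1 : Wm m) ≠ sg i * sg (i + 1) := fun h => by rw [← h, l0] at l3; omega
  have n4 : (sg i : Wm m) ≠ sg (i + 1) := fun h => succ_ne (by omega) i (sg_inj h).symm
  have n5 : (sg i : Wm m) ≠ sg i * sg (i + 1) := fun h => by rw [← h, l1] at l3; omega
  have n6 : (sg (i + 1) : Wm m) ≠ sg i * sg (i + 1) := fun h => by rw [← h, l2] at l3; omega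
  rw [Set.ncard_insert_of_notMem (by simp [n1, n2, n3]), Set.ncard_insert_of_notMem
    (by simp only [Set.mem_insert_iff, Set.mem_singleton_iff]; tauto), Set.ncard_pair n6]

theorem sq_inj (hm : 100 ≤ m) (w : Wm m) (i j : Lab m) (h : sqv nW w i = sqv nW w j) : i = j := by
  have h1 : sqv nW (1 : Wm m) i = sqv nW 1 j := by
    have h2 := congrArg (fun S : Set (Wm m) => (fun x => w⁻¹ * x) '' S) h
    simp only [sq_trans, inv_mul_cancel] at h2
    exact h2
  have key : ∀ a : Lab m, (sg a : Wm m) ∈ sqv nW (1 : Wm m) j → a = j ∨ a = j + 1 := by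
    intro a ha
    rw [sqv_one] at ha
    simp only [Set.mem_insert_iff, Set.mem_singleton_iff] at ha
    rcases ha with ha | ha | ha | ha
    · exact absurd ha (sg_ne_one a)
    · exact Or.inl (sg_inj ha)
    · exact Or.inr (sg_inj ha)
    · have h3 := len_sgsg hm j
      rw [← ha, len_sg] at h3
      exact absurd h3 (by norm_num)
  have k1 := key i (by rw [← h1, sqv_one]; simp)
  have k2 := key (i + 1) (by rw [← h1, sqv_one]; simp)
  rcases k1 with k1 | k1
  · exact k1
  · exfalso
    subst k1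
    rcases k2 with k2 | k2
    · have h3 : (2 : Lab m) = 0 := by
        have h4 : j + 2 = j := by
          have h6 : j + 2 = j + 1 + 1 := by ring
          rw [h6]
          exact k2
        exact add_eq_left.1 h4
      have h5 := cd_two (m := m) hm
      rw [h3, cd_zero] at h5
      exact absurd h5 (by norm_num)
    · exact succ_ne (by omega) _ k2

/-- Corners of a square (different from `1`) have almost the same angle. -/
theorem th_square (hm : 100 ≤ m) {w x y : Wm m} {i : Lab m} (hx : x ∈ sqv nW w i)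
    (hy : y ∈ sqv nW w i) (hx1 : x ≠ 1) (hy1 : y ≠ 1) : sm (th x - th y) ≤ 2 := by
  have s2 : sm (2 : Ang m) ≤ 2 := by
    have h1 : (2 : Ang m) = 1 + 1 := by norm_num
    rw [h1]
    have h2 := sm_add_le (1 : Ang m) 1
    have h3 := sm_one (m := m)
    omega
  have s1 := sm_one (m := m)
  have s0 := sm_zero (m := m)
  by_cases h1 : (1 : Wm m) ∈ sqv nW w i
  · rw [sq_corner' h1, sqv_one] at hx hy
    simp only [Set.mem_insert_iff, Set.mem_singleton_iff] at hx hy
    have t1 : th (sg i : Wm m) = dbl i := th_single hm (Ld_sg i)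
    have t2 : th (sg (i + 1) : Wm m) = dbl i + 2 := by
      rw [th_single hm (Ld_sg (i + 1)), dbl_add, dbl_one hm]
    have t3 : th (sg i * sg (i + 1) : Wm m) = dbl i + 1 :=
      th_pair hm (Ld_sgsg (by omega) i)
    have n2 : sm (-2 : Ang m) ≤ 2 := by rw [sm_neg]; exact s2
    have n1 : sm (-1 : Ang m) ≤ 1 := by rw [sm_neg]; exact s1
    rcases hx with hx | hx | hx | hx
    · exact absurd hx hx1
    all_goals
      rcases hy with hy | hy | hy | hy
      · exact absurd hy hy1
      all_goals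
        subst hx
        subst hy
    · rw [sub_self, s0]
      omega
    · rw [t1, t2, show dbl i - (dbl i + 2) = -2 by ring]
      exact n2
    · rw [t1, t3, show dbl i - (dbl i + 1) = -1 by ring]
      omega
    · rw [t1, t2, show dbl i + 2 - dbl i = 2 by ring]
      exact s2
    · rw [sub_self, s0]
      omega
    · rw [t2, t3, show dbl i + 2 - (dbl i + 1) = 1 by ring]
      omega
    · rw [t1, t3, show dbl i + 1 - dbl i = 1 by ring]
      omega
    · rw [t2, t3, show dbl i + 1 - (dbl i + 2) = -1 by ring]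
      omega
    · rw [sub_self, s0]
      omega
  · obtain ⟨l, hl, hw, hp⟩ := sq_path hx hy
    have hne : ∀ p, p <+: l → walk nW x p ≠ 1 := fun p hp' he => h1 (he ▸ hp p hp')
    rcases l with _ | ⟨a, _ | ⟨b, l⟩⟩
    · have h2 : x = y := hw
      rw [h2, sub_self, s0]
      omega
    · have h2 : x * sg a = y := hw
      have h3 := th_edge hm (w := x) (j := a) hx1 (by rw [h2]; exact hy1)
      rw [h2] at h3
      rw [← neg_sub, sm_neg]
      omega
    · have h4 : l = [] := by
        rw [List.length_cons, List.length_cons] at hl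
        exact List.length_eq_zero_iff.1 (by omega)
      subst h4
      have h2 : x * sg a * sg b = y := hw
      have h5 : x * sg a ≠ 1 := hne [a] ⟨[b], rfl⟩
      have h3 := th_edge hm (w := x) (j := a) hx1 h5
      have h6 := th_edge hm (w := x * sg a) (j := b) h5 (by rw [h2]; exact hy1)
      rw [h2] at h6
      have h7 : th x - th y = -((th y - th (x * sg a)) + (th (x * sg a) - th x)) := by ring
      rw [h7, sm_neg]
      have h8 := sm_add_le (th y - th (x * sg a)) (th (x * sg a) - th x)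
      omega

end URW
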