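import Pool.Agent.URW.Cox.Nice
import Pool.Agent.URW.Cox.Desc

/-!
# URW Cox/ThNice (package, 2 h): the angle along a nice walk which avoids the base point (N3)

PROOFS. `c = cm m`.
* `up_up`: after a step up along `j` the next step along `k` with `cd (j - k) ≥ 3` goes up: `j ∈ Rd (w s_j)`
  (`len_mul_s`, `mul_s_mul_s`), and `k ∈ Rd (w s_j)` would commute with `j` (`Rd_comm`).
* `grow_first`: a step up which enlarges `Ld`, `j ∉ Rd w`, `Ld (w s_j) ≠ Ld w`: by `Ld_subset_mul_s` there is
  `k ∈ Ld (w s_j)`, `k ∉ Ld w`; by `Ld_mul_s` (for a reduced word `l` of `w`) `k = j` and all letters `a` of `l` satisfy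
  `c a j`.
* `up_const`: a nice walk `i :: l` from `v` whose first step goes up (`i ∉ Rd v`): all steps go up (`up_up`), and
  `Ld (v s_i p) = Ld (v s_i)` for all initial segments `i :: p`: induction on the walk, in each later step along `k`
  from `v' = v'' s_j` (`j` the previous label, `cd (j - k) ≥ 3`, step `v'' → v'` up): if it enlarged `Ld` then by
  `grow_first` all letters of any reduced word of `v'` commute with `k`; but `v'' s_j` has a reduced word
  `l'' ++ [j]` (`red_iff`), and `j` does not commute with `k`.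
* `turn`: let `v ≠ 1`, `a`, `b ∉ Rd v`, `cd (a - b) ≥ 3`. Then `Ld (v s_a) = Ld v` or `Ld (v s_b) = Ld v`: otherwise
  by `grow_first` a letter `x` of a reduced word of `v` (nonempty, `v ≠ 1`) has `cd (x - a) = 1 = cd (x - b)`, so
  `cd (a - b) ≤ 2`.
* `th_nice`: reduce to the angles at the start and the end of a subwalk (`p`, `q` initial segments, say `p` is an
  initial segment of `q`; replace `w` by `walk w p` and `l` by the rest; nice, avoids `1`): so show
  `sm (th (walk nW w l) - th w) ≤ 1` for nice `l` avoiding `1`. Write `l = l₁ ++ l₂` where `l₁` are the first steps that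
  go down and `l₂` starts with a step up or is empty (take the maximal initial segment whose steps all go down);
  `v = walk nW w l₁` is the bottom. `l₁.reverse` is a nice walk from `v` to `w` with all steps up. Let `a` be the last
  letter of `l₁`, `b` the first letter of `l₂`. By `up_const`: `Ld w = Ld (v s_a)` (or `Ld w = Ld v` if `l₁ = []`),
  `Ld (end) = Ld (v s_b)` (or `Ld v`). By `turn` one of them is `Ld v`, and the other one contains `Ld v`
  (`Ld_subset_mul_s`): `th_of_subset`, `sm_neg`.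
-/

set_option autoImplicit false

namespace URW

variable {m : ℕ}

theorem up_up (hm : 100 ≤ m) {w : Wm m} {j k : Lab m} (hj : j ∉ UWW.Rd w)
    (hjk : 3 ≤ cd (j - k)) : k ∉ UWW.Rd (w * sg j) := by
  intro hk
  rcases (UWW.Rd_mul_s hj k).1 hk with h | ⟨-, h⟩
  · subst h
    rw [sub_self, cd_zero] at hjk
    omega
  · have h1 : cd (k - j) = 1 := h
    rw [cd_sub_comm] at h1
    omega

theorem grow_first (hm : 100 ≤ m) {w : Wm m} {j : Lab m} (hj : j ∉ UWW.Rd w)
    (h : UWW.Ld (w * sg j) ≠ UWW.Ld w) {l : List (Lab m)} (hl : UWW.Red (cm m) l)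
    (hw : UWW.pr (cm m) l = w) : ∀ a ∈ l, cd (a - j) = 1 := by
  have h1 := UWW.Ld_subset_mul_s hj
  obtain ⟨k, hk, hk'⟩ : ∃ k, k ∈ UWW.Ld (w * sg j) ∧ k ∉ UWW.Ld w := by
    by_contra hc
    push Not at hc
    exact h (Set.Subset.antisymm hc h1)
  obtain ⟨h2, h3⟩ := UWW.Ld_mul_s hj hk' hk hl hw
  subst h2
  intro a ha
  exact (h3 a ha).2

theorem up_const (hm : 100 ≤ m) {v : Wm m} {i : Lab m} {l : List (Lab m)} (hl : NiceW (i :: l))
    (hi : i ∉ UWW.Rd v) : UWW.Ld (walk nW v (i :: l)) = UWW.Ld (v * sg i) := by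
  induction l generalizing v i with
  | nil => rfl
  | cons k l ih =>
    obtain ⟨h1, h2⟩ := nice_cons.1 hl
    have h3 : k ∉ UWW.Rd (v * sg i) := up_up hm hi h1
    have h4 : UWW.Ld (walk nW (v * sg i) (k :: l)) = UWW.Ld (v * sg i * sg k) := ih h2 h3
    have h5 : walk nW v (i :: k :: l) = walk nW (v * sg i) (k :: l) := rfl
    rw [h5, h4]
    by_contra hc
    obtain ⟨l', hl', hv⟩ := UWW.exists_red v
    have h6 : UWW.Red (cm m) (l' ++ [i]) := by
      rw [UWW.red_iff, UWW.pr_append, List.length_append, UWW.pr_cons, UWW.pr_nil, mul_one, hv]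
      rcases UWW.len_mul_s v i with ⟨-, h7⟩ | ⟨h7, -⟩
      · rw [h7, ← hv, UWW.len_pr hl']
        rfl
      · exact absurd h7 hi
    have h8 : UWW.pr (cm m) (l' ++ [i]) = v * sg i := by
      rw [UWW.pr_append, UWW.pr_cons, UWW.pr_nil, mul_one, hv]
    have h9 := grow_first hm h3 hc h6 h8 i (by simp)
    omega

theorem turn (hm : 100 ≤ m) {v : Wm m} (hv : v ≠ 1) {a b : Lab m} (ha : a ∉ UWW.Rd v)
    (hb : b ∉ UWW.Rd v) (hab : 3 ≤ cd (a - b)) :
    UWW.Ld (v * sg a) = UWW.Ld v ∨ UWW.Ld (v * sg b) = UWW.Ld v := by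
  by_contra hc
  push Not at hc
  obtain ⟨l, hl, hw⟩ := UWW.exists_red v
  rcases l with _ | ⟨x, l⟩
  · exact hv hw.symm
  · have h1 := grow_first hm ha hc.1 hl hw x (by simp)
    have h2 := grow_first hm hb hc.2 hl hw x (by simp)
    have h3 := cd_add_le (a - x) (x - b)
    rw [sub_add_sub_cancel, cd_sub_comm a x] at h3
    omega

private theorem split_walk (l : List (Lab m)) (w : Wm m) : ∃ l₁ l₂ : List (Lab m),
    l = l₁ ++ l₂ ∧ (l₁ = [] ∨ ∃ a l', l₁ = l' ++ [a] ∧ a ∉ UWW.Rd (walk nW w l₁)) ∧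
      (l₂ = [] ∨ ∃ b l', l₂ = b :: l' ∧ b ∉ UWW.Rd (walk nW w l₁)) := by
  induction l generalizing w with
  | nil => exact ⟨[], [], rfl, Or.inl rfl, Or.inl rfl⟩
  | cons i l ih =>
    by_cases hi : i ∈ UWW.Rd w
    · obtain ⟨l₁, l₂, h1, h2, h3⟩ := ih (w * sg i)
      refine ⟨i :: l₁, l₂, ?_, Or.inr ?_, ?_⟩
      · rw [h1, List.cons_append]
      · rcases h2 with h2 | ⟨a, l', h2, h4⟩
        · refine ⟨i, [], by rw [h2]; rfl, ?_⟩
          rw [h2]
          change i ∉ UWW.Rd (w * sg i)
          intro h5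
          rcases UWW.len_mul_s w i with ⟨h6, -⟩ | ⟨-, h6⟩
          · exact h6 hi
          · rcases UWW.len_mul_s (w * sg i) i with ⟨h7, -⟩ | ⟨-, h7⟩
            · exact h7 h5
            · have h8 : w * sg i * sg i = w := UWW.mul_s_mul_s i w
              rw [h8] at h7
              have h9 : UWW.len (w * sg i) + 1 = UWW.len w := h6
              have h10 : UWW.len w + 1 = UWW.len (w * sg i) := h7
              omega
        · exact ⟨a, i :: l', by rw [h2, List.cons_append], h4⟩
      · exact h3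
    · exact ⟨[], i :: l, rfl, Or.inl rfl, Or.inr ⟨i, l, rfl, hi⟩⟩

private theorem nice_rev {l : List (Lab m)} (h : NiceW l) : NiceW l.reverse := by
  unfold NiceW at h ⊢
  rw [List.isChain_reverse]
  refine List.IsChain.imp ?_ h
  intro a b hab
  rw [cd_sub_comm]
  exact hab

private theorem walk_back (w : Wm m) (l' : List (Lab m)) (a : Lab m) :
    walk nW (walk nW w (l' ++ [a])) (a :: l'.reverse) = w := by
  have h1 : a :: l'.reverse = (l' ++ [a]).reverse := by
    rw [List.reverse_append]
    rfl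
  rw [h1]
  refine walk_reverse ?_ _ _
  intro v i
  exact UWW.mul_s_mul_s i v

private theorem th_ends (hm : 100 ≤ m) {w : Wm m} {l : List (Lab m)} (hl : NiceW l)
    (h : ∀ p, p <+: l → walk nW w p ≠ 1) :
    sm (th (walk nW w l) - th w) ≤ 1 := by
  obtain ⟨l₁, l₂, h1, h2, h3⟩ := split_walk l w
  have hw : w ≠ 1 := h [] (List.nil_prefix)
  have he : walk nW w l ≠ 1 := h l (List.prefix_refl l)
  have hv : walk nW w l₁ ≠ 1 := h l₁ ⟨l₂, h1.symm⟩
  have h4 : walk nW w l = walk nW (walk nW w l₁) l₂ := by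
    rw [h1, walk_append]
  have hl1 : NiceW l₁ := by
    rw [h1] at hl
    exact List.IsChain.left_of_append hl
  have hl2 : NiceW l₂ := by
    rw [h1] at hl
    exact List.IsChain.right_of_append hl
  have key1 : ∀ b l', l₂ = b :: l' → b ∉ UWW.Rd (walk nW w l₁) →
      UWW.Ld (walk nW w l) = UWW.Ld (walk nW w l₁ * sg b) := by
    intro b l' h5 h6
    rw [h4, h5]
    rw [h5] at hl2
    exact up_const hm hl2 h6
  have key2 : ∀ a l', l₁ = l' ++ [a] → a ∉ UWW.Rd (walk nW w l₁) →
      UWW.Ld w = UWW.Ld (walk nW w l₁ * sg a) := by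
    intro a l' h5 h6
    have h7 : walk nW (walk nW w l₁) (a :: l'.reverse) = w := by
      rw [h5]
      exact walk_back w l' a
    have h8 : NiceW (a :: l'.reverse) := by
      have h9 := nice_rev hl1
      rw [h5, List.reverse_append] at h9
      exact h9
    have h9 := up_const hm h8 h6
    rw [h7] at h9
    exact h9
  rcases h2 with h2 | ⟨a, l', h2, h5⟩
  · have h6 : walk nW w l₁ = w := by
      rw [h2]
      rfl
    rcases h3 with h3 | ⟨b, l'', h3, h7⟩
    · have h8 : walk nW w l = w := by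
        rw [h4, h3, h6]
        rfl
      rw [h8, sub_self, sm_zero]
      exact Nat.zero_le 1
    · have h8 := key1 b l'' h3 h7
      refine th_of_subset hm hw ?_
      rw [h8, h6]
      rw [h6] at h7
      exact UWW.Ld_subset_mul_s h7
  · have h6 := key2 a l' h2 h5
    have h6' : UWW.Ld (walk nW w l₁) ⊆ UWW.Ld w := by
      rw [h6]
      exact UWW.Ld_subset_mul_s h5
    rcases h3 with h3 | ⟨b, l'', h3, h7⟩
    · have h8 : walk nW w l = walk nW w l₁ := by
        rw [h4, h3]
        rfl
      rw [h8, ← neg_sub, sm_neg]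
      exact th_of_subset hm hv h6'
    · have h8 := key1 b l'' h3 h7
      have h8' : UWW.Ld (walk nW w l₁) ⊆ UWW.Ld (walk nW w l) := by
        rw [h8]
        exact UWW.Ld_subset_mul_s h7
      have hab : 3 ≤ cd (a - b) := by
        rw [h1, h2, h3, List.append_assoc] at hl
        have h9 : NiceW ([a] ++ (b :: l'')) := List.IsChain.right_of_append hl
        exact (nice_cons.1 h9).1
      rcases turn hm hv h5 h7 hab with h9 | h9
      · refine th_of_subset hm hw ?_
        rw [h6, h9]
        exact h8'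
      · rw [← neg_sub, sm_neg]
        refine th_of_subset hm he ?_
        rw [h8, h9]
        exact h6'

private theorem th_pre (hm : 100 ≤ m) {w : Wm m} {l : List (Lab m)} (hl : NiceW l)
    (h : ∀ p, p <+: l → walk nW w p ≠ 1) {p q : List (Lab m)} (hq : q <+: l) (hp : p <+: q) :
    sm (th (walk nW w q) - th (walk nW w p)) ≤ 1 := by
  obtain ⟨r, hr⟩ := hp
  have h1 : walk nW w q = walk nW (walk nW w p) r := by
    rw [← hr, walk_append]
  have h2 : NiceW q := by
    obtain ⟨s, hs⟩ := hq
    rw [← hs] at hl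
    exact List.IsChain.left_of_append hl
  have h3 : NiceW r := by
    rw [← hr] at h2
    exact List.IsChain.right_of_append h2
  rw [h1]
  refine th_ends hm h3 ?_
  intro p' hp'
  rw [← walk_append]
  refine h _ (List.IsPrefix.trans ?_ hq)
  rw [← hr]
  exact (List.prefix_append_right_inj p).2 hp'

/-- (N3) along a nice walk which avoids `1` the angle stays in a range of one (half) unit. -/
theorem th_nice (hm : 100 ≤ m) {w : Wm m} {l : List (Lab m)} (hl : NiceW l)
    (h : ∀ p, p <+: l → walk nW w p ≠ 1) (p q : List (Lab m)) (hp : p <+: l) (hq : q <+: l) :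
    sm (th (walk nW w p) - th (walk nW w q)) ≤ 1 := by
  rcases List.prefix_or_prefix_of_prefix hp hq with h1 | h1
  · have h2 := th_pre hm hl h hq h1
    rw [← neg_sub, sm_neg]
    exact h2
  · exact th_pre hm hl h hp h1

end URW
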