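import Pool.Agent.URW.Cox.Sq
import Pool.Agent.URW.Cox.Quot

/-!
# URW Cox/Tri (package, 2 h): triangles of the plane

PROOFS. In this file `s i = sqv nW g i`. A triangle is, up to rotation, `(w, w s_j, sqv nW w (j or j - 1))`, `j` for
even and `j - 1` for odd length of `w`. `sq_corner'`: `sqv nW (g s_j) i = sqv nW g i` for `i ∈ {j, j - 1}`.
`even_mul`, `len_sg`: the lengths of `g` and `g s_j` have different parities.
* `T_inl`: (even `g`) triangles `T0 g y z`: `y = g s_j`, `z = s j`. `T0 y z g`: impossible (`g` is not a centre).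
  `T0 z g y`: `z = w`, `g = w s_j`, `w = g s_j` odd, `y = sqv nW w (j - 1) = s (j - 1)`: this is the second form with
  `i = j - 1`. Odd `g` similarly.
* `T_inr`: triangles with a centre: `T (inr s) y z` means `T0 y z (inr s)`.
* `good_ne`, `good_uniq`, `good_opp`, `good_nd`: case analysis: `x = inl g` by `T_inl` (for `uniq`: `g s_j = g s_i` gives
  `j = i` by `sg_inj`; `s i = s j` gives `i = j` by `sq_inj`), `x = inr s` by `T_inr` (both ends of an edge of the square are
  determined by one of them and `s`, again by `sq_inj`). For `nd`: the squares on the two sides of an edge are different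
  (`sqv nW w j ≠ sqv nW w (j - 1)`, `sq_inj`).
* `T_cor`: all corners are in the square. `T_not_inl`: the centre. `adj_*`: from `T_inl` (both edges at `g` of the square
  `sqv nW g i`: one triangle starts with the edge, one with the centre).
* `trans_T`: `sq_trans`, `even_mul`.
-/

set_option autoImplicit false

namespace URW

variable {m : ℕ}

theorem even_step (g : Wm m) (j : Lab m) : Even (UWW.len (g * sg j)) ↔ ¬ Even (UWW.len g) := by
  rw [even_mul, len_sg]
  simp

private theorem sq_e1 (w : Wm m) (i : Lab m) : sqv nW (w * sg i) i = sqv nW w i :=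
  (sq_corner' (by rw [sqv_eq]; simp)).symm

private theorem sq_e2 (w : Wm m) (i : Lab m) : sqv nW (w * sg (i + 1)) i = sqv nW w i :=
  (sq_corner' (by rw [sqv_eq]; simp)).symm

private theorem sq_e3 (w : Wm m) (i : Lab m) : sqv nW (w * sg i) (i - 1) = sqv nW w (i - 1) := by
  have h := sq_e2 w (i - 1)
  rwa [sub_add_cancel] at h

private theorem T0_mk_even {w : Wm m} (h : Even (UWW.len w)) (i : Lab m) :
    T0 m (Sum.inl w) (Sum.inl (w * sg i)) (Sum.inr (sqv nW w i)) :=
  ⟨w, i, rfl, rfl, by rw [if_pos h]⟩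

private theorem T0_mk_odd {w : Wm m} (h : ¬ Even (UWW.len w)) (i : Lab m) :
    T0 m (Sum.inl w) (Sum.inl (w * sg i)) (Sum.inr (sqv nW w (i - 1))) :=
  ⟨w, i, rfl, rfl, by rw [if_neg h]⟩

private theorem T0_mk_odd' {w : Wm m} (h : ¬ Even (UWW.len w)) (i : Lab m) :
    T0 m (Sum.inl w) (Sum.inl (w * sg (i + 1))) (Sum.inr (sqv nW w i)) := by
  have h1 := T0_mk_odd h (i + 1)
  rwa [add_sub_cancel_right] at h1

/-- the other form of the basic triangles -/
private theorem T0_even' {w : Wm m} (h : Even (UWW.len w)) (i : Lab m) :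
    T0 m (Sum.inl (w * sg (i + 1))) (Sum.inl w) (Sum.inr (sqv nW w i)) := by
  have h1 : ¬ Even (UWW.len (w * sg (i + 1))) := by
    rw [even_step]
    exact not_not.2 h
  have h2 := T0_mk_odd' h1 i
  rwa [UWW.mul_s_mul_s, sq_e2] at h2

private theorem T0_odd' {w : Wm m} (h : ¬ Even (UWW.len w)) (i : Lab m) :
    T0 m (Sum.inl (w * sg i)) (Sum.inl w) (Sum.inr (sqv nW w i)) := by
  have h1 : Even (UWW.len (w * sg i)) := by
    rw [even_step]
    exact h
  have h2 := T0_mk_even h1 i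
  rwa [UWW.mul_s_mul_s, sq_e1] at h2

private theorem T0_cases {a b c : (plane m).V} (h : T0 m a b c) :
    ∃ (w : Wm m) (i : Lab m), a = Sum.inl w ∧ b = Sum.inl (w * sg i) ∧
      ((Even (UWW.len w) ∧ c = Sum.inr (sqv nW w i)) ∨
        (¬ Even (UWW.len w) ∧ c = Sum.inr (sqv nW w (i - 1)))) := by
  obtain ⟨w, i, h1, h2, h3⟩ := h
  refine ⟨w, i, h1, h2, ?_⟩
  by_cases he : Even (UWW.len w)
  · rw [if_pos he] at h3
    exact Or.inl ⟨he, h3⟩
  · rw [if_neg he] at h3
    exact Or.inr ⟨he, h3⟩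

private theorem T0_inl3 {a b : (plane m).V} {g : Wm m} (h : T0 m a b (Sum.inl g)) : False := by
  obtain ⟨w, i, -, -, h3⟩ := h
  exact Sum.inl_ne_inr h3

private theorem T0_inr1 {b c : (plane m).V} {s : Set (Wm m)} (h : T0 m (Sum.inr s) b c) :
    False := by
  obtain ⟨w, i, h1, -, -⟩ := h
  exact Sum.inr_ne_inl h1

private theorem T0_inr2 {a c : (plane m).V} {s : Set (Wm m)} (h : T0 m a (Sum.inr s) c) :
    False := by
  obtain ⟨w, i, -, h2, -⟩ := h
  exact Sum.inr_ne_inl h2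

/-- The triangles at a vertex of the group. -/
theorem T_inl (hm : 100 ≤ m) (g : Wm m) (y z : (plane m).V) :
    (plane m).T (Sum.inl g) y z ↔ ∃ i,
      (Even (UWW.len g) ∧ ((y = Sum.inl (g * sg i) ∧ z = Sum.inr (sqv nW g i)) ∨
        (y = Sum.inr (sqv nW g i) ∧ z = Sum.inl (g * sg (i + 1))))) ∨
      (¬ Even (UWW.len g) ∧ ((z = Sum.inl (g * sg i) ∧ y = Sum.inr (sqv nW g i)) ∨
        (z = Sum.inr (sqv nW g i) ∧ y = Sum.inl (g * sg (i + 1))))) := by
  constructor
  · rintro (h | h | h)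
    · obtain ⟨w, i, h1, h2, h3⟩ := T0_cases h
      have e : g = w := Sum.inl_injective h1
      subst e
      rcases h3 with ⟨h3, h4⟩ | ⟨h3, h4⟩
      · exact ⟨i, Or.inl ⟨h3, Or.inl ⟨h2, h4⟩⟩⟩
      · refine ⟨i - 1, Or.inr ⟨h3, Or.inr ⟨h4, ?_⟩⟩⟩
        rw [sub_add_cancel]
        exact h2
    · exact (T0_inl3 h).elim
    · obtain ⟨w, i, h1, h2, h3⟩ := T0_cases h
      have e : g = w * sg i := Sum.inl_injective h2
      have e' : w = g * sg i := by rw [e, UWW.mul_s_mul_s]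
      subst e'
      rcases h3 with ⟨h3, h4⟩ | ⟨h3, h4⟩
      · rw [even_step] at h3
        rw [sq_e1] at h4
        exact ⟨i, Or.inr ⟨h3, Or.inl ⟨h1, h4⟩⟩⟩
      · rw [even_step, not_not] at h3
        rw [sq_e3] at h4
        refine ⟨i - 1, Or.inl ⟨h3, Or.inr ⟨h4, ?_⟩⟩⟩
        rw [sub_add_cancel]
        exact h1
  · rintro ⟨i, ⟨he, ⟨rfl, rfl⟩ | ⟨rfl, rfl⟩⟩ | ⟨he, ⟨rfl, rfl⟩ | ⟨rfl, rfl⟩⟩⟩
    · exact Or.inl (T0_mk_even he i)
    · exact Or.inr (Or.inr (T0_even' he i))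
    · exact Or.inr (Or.inr (T0_odd' he i))
    · exact Or.inl (T0_mk_odd' he i)

/-- The triangles at a centre. -/
theorem T_inr (s : Set (Wm m)) (y z : (plane m).V) :
    (plane m).T (Sum.inr s) y z ↔ ∃ (w : Wm m) (i : Lab m), y = Sum.inl w ∧
      z = Sum.inl (w * sg i) ∧ s = sqv nW w (if Even (UWW.len w) then i else i - 1) := by
  constructor
  · rintro (h | h | h)
    · exact (T0_inr1 h).elim
    · obtain ⟨w, i, h1, h2, h3⟩ := T0_cases h
      refine ⟨w, i, h1, h2, ?_⟩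
      rcases h3 with ⟨h3, h4⟩ | ⟨h3, h4⟩
      · rw [if_pos h3]
        exact Sum.inr_injective h4
      · rw [if_neg h3]
        exact Sum.inr_injective h4
    · exact (T0_inr2 h).elim
  · rintro ⟨w, i, rfl, rfl, rfl⟩
    refine Or.inr (Or.inl ?_)
    by_cases he : Even (UWW.len w)
    · rw [if_pos he]
      exact T0_mk_even he i
    · rw [if_neg he]
      exact T0_mk_odd he i

theorem good_rot {x y z : (plane m).V} (h : (plane m).T x y z) : (plane m).T y z x := by
  rcases h with h | h | h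
  · exact Or.inr (Or.inr h)
  · exact Or.inl h
  · exact Or.inr (Or.inl h)

theorem good_ne (hm : 100 ≤ m) {x y z : (plane m).V} (h : (plane m).T x y z) : x ≠ y := by
  rcases h with h | h | h
  · obtain ⟨w, i, rfl, rfl, -⟩ := T0_cases h
    intro e
    have e' : w = w * sg i := Sum.inl_injective e
    exact sg_ne_one i (left_eq_mul.1 e')
  · obtain ⟨w, i, rfl, rfl, h3⟩ := T0_cases h
    rintro rfl
    rcases h3 with ⟨-, h4⟩ | ⟨-, h4⟩
    · exact Sum.inl_ne_inr h4
    · exact Sum.inl_ne_inr h4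
  · obtain ⟨w, i, rfl, rfl, h3⟩ := T0_cases h
    rintro rfl
    rcases h3 with ⟨-, h4⟩ | ⟨-, h4⟩
    · exact Sum.inl_ne_inr h4
    · exact Sum.inl_ne_inr h4

theorem good_uniq (hm : 100 ≤ m) {x y z z' : (plane m).V} (h : (plane m).T x y z)
    (h' : (plane m).T x y z') : z = z' := by
  rcases x with g | s
  · obtain ⟨i, hi⟩ := (T_inl hm g y z).1 h
    obtain ⟨j, hj⟩ := (T_inl hm g y z').1 h'
    rcases hi with ⟨he, ⟨h1, h2⟩ | ⟨h1, h2⟩⟩ | ⟨he, ⟨h1, h2⟩ | ⟨h1, h2⟩⟩
    · rcases hj with ⟨_, ⟨h3, h4⟩ | ⟨h3, h4⟩⟩ | ⟨he', _⟩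
      · rw [h1] at h3
        have e := sg_inj (mul_left_cancel (Sum.inl_injective h3))
        rw [h2, h4, e]
      · rw [h1] at h3
        exact (Sum.inl_ne_inr h3).elim
      · exact absurd he he'
    · rcases hj with ⟨_, ⟨h3, h4⟩ | ⟨h3, h4⟩⟩ | ⟨he', _⟩
      · rw [h1] at h3
        exact (Sum.inr_ne_inl h3).elim
      · rw [h1] at h3
        have e := sq_inj hm g i j (Sum.inr_injective h3)
        rw [h2, h4, e]
      · exact absurd he he'
    · rcases hj with ⟨he', _⟩ | ⟨_, ⟨h3, h4⟩ | ⟨h3, h4⟩⟩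
      · exact absurd he' he
      · rw [h2] at h4
        have e := sq_inj hm g i j (Sum.inr_injective h4)
        rw [h1, h3, e]
      · rw [h2] at h4
        exact (Sum.inr_ne_inl h4).elim
    · rcases hj with ⟨he', _⟩ | ⟨_, ⟨h3, h4⟩ | ⟨h3, h4⟩⟩
      · exact absurd he' he
      · rw [h2] at h4
        exact (Sum.inl_ne_inr h4).elim
      · rw [h2] at h4
        have e := sg_inj (mul_left_cancel (Sum.inl_injective h4))
        rw [h1, h3, add_right_cancel e]
  · obtain ⟨w, i, h1, h2, h3⟩ := (T_inr s y z).1 h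
    obtain ⟨w', i', h1', h2', h3'⟩ := (T_inr s y z').1 h'
    have e : w = w' := Sum.inl_injective (h1.symm.trans h1')
    subst e
    have e2 := sq_inj hm w _ _ (h3.symm.trans h3')
    have e3 : i = i' := by
      by_cases he : Even (UWW.len w)
      · rw [if_pos he, if_pos he] at e2
        exact e2
      · rw [if_neg he, if_neg he] at e2
        exact sub_left_injective e2
    rw [h2, h2', e3]

/-- the triangles with the edge from `g` to a centre -/
private theorem ex_to (hm : 100 ≤ m) (g : Wm m) (k : Lab m) :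
    ∃ w, (plane m).T (Sum.inl g) (Sum.inr (sqv nW g k)) w := by
  by_cases he : Even (UWW.len g)
  · exact ⟨_, (T_inl hm g _ _).2 ⟨k, Or.inl ⟨he, Or.inr ⟨rfl, rfl⟩⟩⟩⟩
  · exact ⟨_, (T_inl hm g _ _).2 ⟨k, Or.inr ⟨he, Or.inl ⟨rfl, rfl⟩⟩⟩⟩

private theorem ex_from (g : Wm m) (k : Lab m) :
    ∃ w, (plane m).T (Sum.inr (sqv nW g k)) (Sum.inl g) w := by
  by_cases he : Even (UWW.len g)
  · exact ⟨_, Or.inr (Or.inl (T0_mk_even he k))⟩
  · exact ⟨_, Or.inr (Or.inl (T0_mk_odd' he k))⟩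

theorem good_opp (hm : 100 ≤ m) {x y z : (plane m).V} (h : (plane m).T x y z) :
    ∃ w, (plane m).T y x w := by
  rcases h with h | h | h
  · obtain ⟨w, i, rfl, rfl, -⟩ := T0_cases h
    refine ⟨Sum.inr (sqv nW (w * sg i) (if Even (UWW.len (w * sg i)) then i else i - 1)),
      Or.inl ?_⟩
    by_cases he : Even (UWW.len (w * sg i))
    · have h1 := T0_mk_even he i
      rw [UWW.mul_s_mul_s] at h1
      rw [if_pos he]
      exact h1
    · have h1 := T0_mk_odd he i
      rw [UWW.mul_s_mul_s] at h1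
      rw [if_neg he]
      exact h1
  · obtain ⟨w, i, rfl, rfl, h3⟩ := T0_cases h
    rcases h3 with ⟨-, rfl⟩ | ⟨-, rfl⟩
    · exact ex_to hm w i
    · exact ex_to hm w (i - 1)
  · obtain ⟨w, i, rfl, rfl, h3⟩ := T0_cases h
    rcases h3 with ⟨-, rfl⟩ | ⟨-, rfl⟩
    · have h1 := ex_from (w * sg i) i
      rwa [sq_e1] at h1
    · have h1 := ex_from (w * sg i) (i - 1)
      rwa [sq_e3] at h1

private theorem T0_nd (hm : 100 ≤ m) {a b c : (plane m).V} (h : T0 m a b c)
    (h' : T0 m b a c) : False := by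
  obtain ⟨w, i, rfl, rfl, h3⟩ := T0_cases h
  obtain ⟨w', j, h1', h2', h3'⟩ := T0_cases h'
  have e : w * sg i = w' := Sum.inl_injective h1'
  subst e
  have e2 : w = w * sg i * sg j := Sum.inl_injective h2'
  have e3 : (sg i : Wm m) = sg j := by
    have e4 : (sg i : Wm m) * sg j = 1 := by
      rw [mul_assoc] at e2
      exact left_eq_mul.1 e2
    rw [mul_eq_one_iff_eq_inv.1 e4, UWW.s_inv]
  have e5 := sg_inj e3
  subst e5
  have h10 : (1 : Lab m) ≠ 0 := by
    intro h0
    have h2 := cd_one' hm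
    rw [h0, cd_zero] at h2
    exact absurd h2 (by norm_num)
  rcases h3 with ⟨he, rfl⟩ | ⟨he, rfl⟩
  · rcases h3' with ⟨he', -⟩ | ⟨-, h4⟩
    · rw [even_step] at he'
      exact he' he
    · rw [sq_e3] at h4
      have h5 := sq_inj hm w _ _ (Sum.inr_injective h4)
      have h6 : (1 : Lab m) = 0 := by
        calc (1 : Lab m) = i - (i - 1) := by ring
          _ = 0 := by rw [← h5, sub_self]
      exact h10 h6
  · rcases h3' with ⟨-, h4⟩ | ⟨he', -⟩
    · rw [sq_e1] at h4
      have h5 := sq_inj hm w _ _ (Sum.inr_injective h4)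
      have h6 : (1 : Lab m) = 0 := by
        calc (1 : Lab m) = i - (i - 1) := by ring
          _ = 0 := by rw [h5, sub_self]
      exact h10 h6
    · rw [even_step, not_not] at he'
      exact he he'

private theorem T0_third {a b c : (plane m).V} (h : T0 m a b c) :
    ∃ (w w' : Wm m) (s : Set (Wm m)), a = Sum.inl w ∧ b = Sum.inl w' ∧ c = Sum.inr s := by
  obtain ⟨w, i, h1, h2, h3⟩ := T0_cases h
  rcases h3 with ⟨-, h4⟩ | ⟨-, h4⟩
  · exact ⟨w, w * sg i, _, h1, h2, h4⟩
  · exact ⟨w, w * sg i, _, h1, h2, h4⟩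

theorem good_nd (hm : 100 ≤ m) {x y z : (plane m).V} (h : (plane m).T x y z) :
    ¬ (plane m).T y x z := by
  intro h'
  rcases h with h | h | h
  · obtain ⟨w, w', s, rfl, rfl, rfl⟩ := T0_third h
    rcases h' with h' | h' | h'
    · exact T0_nd hm h h'
    · exact T0_inr2 h'
    · exact T0_inr1 h'
  · obtain ⟨w, w', s, rfl, rfl, rfl⟩ := T0_third h
    rcases h' with h' | h' | h'
    · exact T0_inr2 h'
    · exact T0_inr1 h'
    · exact T0_nd hm h h'
  · obtain ⟨w, w', s, rfl, rfl, rfl⟩ := T0_third h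
    rcases h' with h' | h' | h'
    · exact T0_inr1 h'
    · exact T0_nd hm h h'
    · exact T0_inr2 h'

private theorem T0_cor {a b c : (plane m).V} (h : T0 m a b c) :
    ∃ w i, cor a ⊆ sqv nW w i ∧ cor b ⊆ sqv nW w i ∧ cor c ⊆ sqv nW w i := by
  obtain ⟨w, i, rfl, rfl, h3⟩ := T0_cases h
  rcases h3 with ⟨-, rfl⟩ | ⟨-, rfl⟩
  · refine ⟨w, i, ?_, ?_, subset_rfl⟩
    · change ({w} : Set (Wm m)) ⊆ sqv nW w i
      rw [Set.singleton_subset_iff, sqv_eq]
      simp
    · change ({w * sg i} : Set (Wm m)) ⊆ sqv nW w i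
      rw [Set.singleton_subset_iff, sqv_eq]
      simp
  · refine ⟨w, i - 1, ?_, ?_, subset_rfl⟩
    · change ({w} : Set (Wm m)) ⊆ sqv nW w (i - 1)
      rw [Set.singleton_subset_iff, sqv_eq]
      simp
    · change ({w * sg i} : Set (Wm m)) ⊆ sqv nW w (i - 1)
      rw [Set.singleton_subset_iff, sqv_eq, sub_add_cancel]
      simp

/-- The corners of the vertices of a triangle lie in one square. -/
theorem T_cor {a b c : (plane m).V} (h : (plane m).T a b c) :
    ∃ w i, cor a ∪ cor b ∪ cor c ⊆ sqv nW w i := by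
  rcases h with h | h | h
  · obtain ⟨w, i, h1, h2, h3⟩ := T0_cor h
    exact ⟨w, i, Set.union_subset (Set.union_subset h1 h2) h3⟩
  · obtain ⟨w, i, h1, h2, h3⟩ := T0_cor h
    exact ⟨w, i, Set.union_subset (Set.union_subset h3 h1) h2⟩
  · obtain ⟨w, i, h1, h2, h3⟩ := T0_cor h
    exact ⟨w, i, Set.union_subset (Set.union_subset h2 h3) h1⟩

/-- No triangle has all its vertices in the group. -/
theorem T_not_inl {a b c : (plane m).V} (h : (plane m).T a b c) :
    ∃ s, a = Sum.inr s ∨ b = Sum.inr s ∨ c = Sum.inr s := by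
  rcases h with h | h | h
  · obtain ⟨w, w', s, -, -, h3⟩ := T0_third h
    exact ⟨s, Or.inr (Or.inr h3)⟩
  · obtain ⟨w, w', s, -, -, h3⟩ := T0_third h
    exact ⟨s, Or.inl h3⟩
  · obtain ⟨w, w', s, -, -, h3⟩ := T0_third h
    exact ⟨s, Or.inr (Or.inl h3)⟩

theorem adj_edge (hm : 100 ≤ m) (w : Wm m) (i : Lab m) :
    (plane m).Adj (Sum.inl w) (Sum.inl (w * sg i)) := by
  exact ⟨_, Or.inl ⟨w, i, rfl, rfl, rfl⟩⟩

theorem adj_inl_inl (hm : 100 ≤ m) {w w' : Wm m}
    (h : (plane m).Adj (Sum.inl w) (Sum.inl w')) : ∃ i, w' = w * sg i := by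
  obtain ⟨z, h⟩ := h
  rcases h with h | h | h
  · obtain ⟨v, i, h1, h2, -⟩ := T0_cases h
    have e : w = v := Sum.inl_injective h1
    subst e
    exact ⟨i, Sum.inl_injective h2⟩
  · exact (T0_inl3 h).elim
  · exact (T0_inl3 h).elim

theorem adj_centre (hm : 100 ≤ m) {w x : Wm m} {i : Lab m} (hx : x ∈ sqv nW w i) :
    (plane m).Adj (Sum.inl x) (Sum.inr (sqv nW w i)) ∧
      (plane m).Adj (Sum.inr (sqv nW w i)) (Sum.inl x) := by
  rw [sq_corner' hx]
  exact ⟨ex_to hm x i, ex_from x i⟩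

/-- A centre with a neighbour is the centre of a square. -/
theorem adj_inr (hm : 100 ≤ m) {s : Set (Wm m)} {a : (plane m).V}
    (h : (plane m).Adj (Sum.inr s) a) : ∃ w i, s = sqv nW w i := by
  obtain ⟨z, h⟩ := h
  obtain ⟨w, i, -, -, h3⟩ := (T_inr s a z).1 h
  exact ⟨w, _, h3⟩

/-- Neighbours of a centre are its corners. -/
theorem adj_inr' {s : Set (Wm m)} {a : (plane m).V}
    (h : (plane m).Adj (Sum.inr s) a) : ∃ w ∈ s, a = Sum.inl w := by
  obtain ⟨z, h⟩ := h
  obtain ⟨w, i, h1, -, h3⟩ := (T_inr s a z).1 h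
  refine ⟨w, ?_, h1⟩
  rw [h3, sqv_eq]
  simp

private theorem trans_T0 {g : Wm m} (hg : Even (UWW.len g)) {a b c : (plane m).V}
    (h : T0 m a b c) : T0 m (trans g a) (trans g b) (trans g c) := by
  obtain ⟨w, i, rfl, rfl, h3⟩ := T0_cases h
  have hp : Even (UWW.len (g * w)) ↔ Even (UWW.len w) := by
    rw [even_mul]
    simp [hg]
  have h2 : (trans g (Sum.inl (w * sg i)) : (plane m).V) = Sum.inl (g * w * sg i) := by
    rw [mul_assoc]
    rfl
  rw [h2]
  rcases h3 with ⟨he, rfl⟩ | ⟨he, rfl⟩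
  · have h4 : (trans g (Sum.inr (sqv nW w i)) : (plane m).V) = Sum.inr (sqv nW (g * w) i) := by
      rw [← sq_trans]
      rfl
    rw [h4]
    exact T0_mk_even (hp.2 he) i
  · have h4 : (trans g (Sum.inr (sqv nW w (i - 1))) : (plane m).V) =
        Sum.inr (sqv nW (g * w) (i - 1)) := by
      rw [← sq_trans]
      rfl
    rw [h4]
    exact T0_mk_odd (fun h5 => he (hp.1 h5)) i

/-- Even translations preserve the plane. -/
theorem trans_T {g : Wm m} (hg : Even (UWW.len g)) {a b c : (plane m).V}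
    (h : (plane m).T a b c) : (plane m).T (trans g a) (trans g b) (trans g c) := by
  rcases h with h | h | h
  · exact Or.inl (trans_T0 hg h)
  · exact Or.inr (Or.inl (trans_T0 hg h))
  · exact Or.inr (Or.inr (trans_T0 hg h))

end URW
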